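import Pool.Agent.V7H83.LG.A8

/-!
Finite products of translates and dilates.
-/

set_option autoImplicit false
open MeasureTheory Filter Topology Set Real
open scoped ENNReal ComplexConjugate

namespace Pool.Agent.V7H83.LG

open Pool.Agent.H983R4.LH hiding ct_measurable

variable {n : ℕ} {lam h w : Fin n → ℝ}

/-- the discrete measure -/
noncomputable def dm (lam h w : Fin n → ℝ) : Measure (ℝ × ℝ) :=
  Measure.sum fun j => ENNReal.ofReal (w j / ∑ i, w i) • Measure.dirac (lam j, h j)

lemma dm_lintegral {f : ℝ × ℝ → ℝ≥0∞} (hf : Measurable f) :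
    ∫⁻ p, f p ∂dm lam h w = ∑ j, ENNReal.ofReal (w j / ∑ i, w i) * f (lam j, h j) := by
  unfold dm
  rw [lintegral_sum_measure, tsum_fintype]
  refine Finset.sum_congr rfl fun j _ => ?_
  rw [lintegral_smul_measure, lintegral_dirac' _ hf, smul_eq_mul]

lemma sum_w_pos (hn : 0 < n) (hw : ∀ j, 0 < w j) : 0 < ∑ j, w j := by
  haveI : Nonempty (Fin n) := ⟨⟨0, hn⟩⟩
  exact Finset.sum_pos (fun j _ => hw j) Finset.univ_nonempty

lemma dm_prob (hn : 0 < n) (hw : ∀ j, 0 < w j) : IsProbabilityMeasure (dm lam h w) := by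
  refine ⟨?_⟩
  have hW := sum_w_pos hn hw
  have h1 := dm_lintegral (lam := lam) (h := h) (w := w) (f := fun _ => 1) measurable_const
  rw [lintegral_one] at h1
  rw [h1]
  simp only [mul_one]
  rw [← ENNReal.ofReal_sum_of_nonneg fun j _ => div_nonneg (hw j).le hW.le, ← Finset.sum_div,
    div_self hW.ne', ENNReal.ofReal_one]

lemma dm_ae {P : ℝ × ℝ → Prop} (hP : ∀ j, P (lam j, h j)) : ∀ᵐ p ∂dm lam h w, P p := by
  unfold dm
  rw [Measure.ae_sum_iff]
  intro j
  refine Measure.ae_smul_measure ?_ _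
  rw [ae_dirac_eq]
  exact hP j

lemma prod_log {x δ : ℝ} (hn : 0 < n) (hw : ∀ j, 0 < w j)
    (hx : ∏ j, Z (lam j * x + h j) ^ w j ≤ Real.exp δ) :
    PP (dm lam h w) x ≤ NN (dm lam h w) x + ENNReal.ofReal (δ / ∑ j, w j) := by
  have hW := sum_w_pos hn hw
  have mm : Measurable fun p : ℝ × ℝ => Z (p.1 * x + p.2) := Z_measurable.comp (by fun_prop)
  unfold PP NN
  rw [dm_lintegral (f := fun p : ℝ × ℝ => pl (Z (p.1 * x + p.2))) (pl_measurable.comp mm),
    dm_lintegral (f := fun p : ℝ × ℝ => nl (Z (p.1 * x + p.2))) (nl_measurable.comp mm)]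
  set z : Fin n → ℝ := fun j => Z (lam j * x + h j) with hz
  have hz0 : ∀ j, 0 ≤ z j := fun j => Z_nonneg _
  by_cases hne : ∀ j, z j ≠ 0
  · have hzp : ∀ j, 0 < z j := fun j => lt_of_le_of_ne (hz0 j) (hne j).symm
    have h1 : ∑ j, w j * Real.log (z j) ≤ δ := by
      have h2 : Real.log (∏ j, z j ^ w j) = ∑ j, w j * Real.log (z j) := by
        rw [Real.log_prod fun j _ => (Real.rpow_pos_of_pos (hzp j) _).ne']
        exact Finset.sum_congr rfl fun j _ => Real.log_rpow (hzp j) _
      rw [← h2]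
      have h3 := Real.log_le_log (Finset.prod_pos fun j _ => Real.rpow_pos_of_pos (hzp j) _) hx
      rwa [Real.log_exp] at h3
    have e1 : ∑ j, ENNReal.ofReal (w j / ∑ i, w i) * pl (z j) =
        ENNReal.ofReal (∑ j, w j / (∑ i, w i) * log⁺ (z j)) := by
      rw [ENNReal.ofReal_sum_of_nonneg fun j _ =>
        mul_nonneg (div_nonneg (hw j).le hW.le) posLog_nonneg]
      refine Finset.sum_congr rfl fun j _ => ?_
      rw [ENNReal.ofReal_mul (div_nonneg (hw j).le hW.le)]
      rfl
    have e2 : ENNReal.ofReal (∑ j, w j / (∑ i, w i) * log⁺ (z j)⁻¹) ≤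
        ∑ j, ENNReal.ofReal (w j / ∑ i, w i) * nl (z j) := by
      rw [ENNReal.ofReal_sum_of_nonneg fun j _ =>
        mul_nonneg (div_nonneg (hw j).le hW.le) posLog_nonneg]
      refine Finset.sum_le_sum fun j _ => ?_
      rw [ENNReal.ofReal_mul (div_nonneg (hw j).le hW.le)]
      gcongr
      exact nl_ge _
    have e3 : ∑ j, w j / (∑ i, w i) * log⁺ (z j) =
        (∑ j, w j / (∑ i, w i) * log⁺ (z j)⁻¹) + (∑ j, w j * Real.log (z j)) / ∑ i, w i := by
      rw [Finset.sum_div, ← Finset.sum_add_distrib]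
      refine Finset.sum_congr rfl fun j _ => ?_
      have := posLog_sub_posLog_inv (x := z j)
      rw [← this]
      ring
    rw [e1, e3]
    refine ENNReal.ofReal_add_le.trans (add_le_add e2 (ENNReal.ofReal_le_ofReal ?_))
    gcongr
  · push Not at hne
    obtain ⟨j, hj⟩ := hne
    have h1 : ∑ j, ENNReal.ofReal (w j / ∑ i, w i) * nl (z j) = ⊤ := by
      refine ENNReal.sum_eq_top.2 ⟨j, Finset.mem_univ j, ?_⟩
      have : nl (z j) = ⊤ := by unfold nl; rw [if_pos hj]
      rw [this]
      refine ENNReal.mul_top ?_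
      have := div_pos (hw j) hW
      simpa using this
    rw [h1, top_add]
    exact le_top

/-- **finite products** -/
theorem products (hn : 0 < n) (hl : ∀ j, 0 < lam j) (hw : ∀ j, 0 < w j) :
    LH ↔ ∀ ε : ℝ, 0 < ε → ∃ C : ℝ, ∀ t : ℝ, 1 ≤ t →
      ∏ j, Z (lam j * t + h j) ^ w j ≤ C * t ^ ε := by
  have hne : Nonempty (Fin n) := ⟨⟨0, hn⟩⟩
  have hW := sum_w_pos hn hw
  constructor
  · intro hLH ε hε
    set W := ∑ j, w j with hWdef
    obtain ⟨C, hC⟩ := hLH (ε / W) (by positivity)
    refine ⟨∏ j, (|C| * (1 + lam j + |h j|) ^ (ε / W)) ^ w j, fun t ht => ?_⟩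
    have h1 : ∀ j, Z (lam j * t + h j) ^ w j ≤
        (|C| * (1 + lam j + |h j|) ^ (ε / W)) ^ w j * t ^ (ε / W * w j) := by
      intro j
      have hlj := hl j
      have h2 : 1 + |lam j * t + h j| ≤ (1 + lam j + |h j|) * t := by
        have h3 : |lam j * t + h j| ≤ lam j * t + |h j| := by
          refine (abs_add_le _ _).trans ?_
          rw [abs_of_nonneg (by positivity : 0 ≤ lam j * t)]
        have := abs_nonneg (h j)
        nlinarith
      have h3 : Z (lam j * t + h j) ≤ (|C| * (1 + lam j + |h j|) ^ (ε / W)) * t ^ (ε / W) := by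
        have h4 : (1 + |lam j * t + h j|) ^ (ε / W) ≤ ((1 + lam j + |h j|) * t) ^ (ε / W) :=
          Real.rpow_le_rpow (by positivity) h2 (by positivity)
        rw [Real.mul_rpow (by positivity) (by linarith)] at h4
        calc Z (lam j * t + h j) ≤ C * (1 + |lam j * t + h j|) ^ (ε / W) := hC _
          _ ≤ |C| * (1 + |lam j * t + h j|) ^ (ε / W) := by
              gcongr; exact le_abs_self C
          _ ≤ |C| * ((1 + lam j + |h j|) ^ (ε / W) * t ^ (ε / W)) := by gcongr
          _ = _ := by ring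
      have h4 := Real.rpow_le_rpow (Z_nonneg _) h3 (hw j).le
      rwa [Real.mul_rpow (by positivity) (by positivity), ← Real.rpow_mul (by linarith)] at h4
    calc ∏ j, Z (lam j * t + h j) ^ w j ≤
        ∏ j, ((|C| * (1 + lam j + |h j|) ^ (ε / W)) ^ w j * t ^ (ε / W * w j)) :=
          Finset.prod_le_prod (fun j _ => Real.rpow_nonneg (Z_nonneg _) _) fun j _ => h1 j
      _ = (∏ j, (|C| * (1 + lam j + |h j|) ^ (ε / W)) ^ w j) * ∏ j, t ^ (ε / W * w j) :=
          Finset.prod_mul_distrib
      _ = _ := by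
          congr 1
          rw [← Real.rpow_sum_of_pos (by linarith), ← Finset.mul_sum, ← hWdef]
          congr 1
          field_simp
  · intro hyp
    obtain ⟨j₁, hj₁⟩ := Finite.exists_min lam
    obtain ⟨j₂, hj₂⟩ := Finite.exists_max fun j => max (lam j) |h j|
    have := dm_prob (lam := lam) (h := h) hn hw
    refine (geo_global (μ := dm lam h w) (a := lam j₁) (b := max (lam j₂) |h j₂|) (l := lam j₁)
      (hl j₁) (dm_ae fun j => ⟨hj₁ j, (le_max_left _ _).trans (hj₂ j),
        (le_max_right _ _).trans (hj₂ j)⟩) ?_).2 ?_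
    · have hms : MeasurableSet {p : ℝ × ℝ | p.1 = lam j₁} :=
        measurable_fst (measurableSet_singleton _)
      have h1 := dm_lintegral (lam := lam) (h := h) (w := w)
        (f := Set.indicator {p : ℝ × ℝ | p.1 = lam j₁} 1) (measurable_one.indicator hms)
      rw [lintegral_indicator_one hms] at h1
      rw [h1]
      intro h2
      rw [Finset.sum_eq_zero_iff] at h2
      have h3 := h2 j₁ (Finset.mem_univ _)
      rw [indicator_of_mem (show (lam j₁, h j₁) ∈ {p : ℝ × ℝ | p.1 = lam j₁} from rfl)] at h3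
      simp at h3
      have := div_pos (hw j₁) hW
      linarith
    · intro ε hε
      set W := ∑ j, w j with hWdef
      obtain ⟨C, hC⟩ := hyp (ε * W / 2) (by positivity)
      refine ⟨max 1 (Real.exp (2 * Real.log (max C 1) / (ε * W))), Eventually.of_forall fun x hx => ?_⟩
      have hx1 : 1 ≤ x := (le_max_left _ _).trans hx
      have hlx : 2 * Real.log (max C 1) / (ε * W) ≤ Real.log x := by
        rw [Real.le_log_iff_exp_le (by linarith)]
        exact (le_max_right _ _).trans hx
      rw [div_le_iff₀ (by positivity)] at hlx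
      have h1 : ∏ j, Z (lam j * x + h j) ^ w j ≤ Real.exp (ε * W * Real.log x) := by
        refine (hC x hx1).trans ?_
        have h2 : C ≤ Real.exp (Real.log (max C 1)) := by
          rw [Real.exp_log (lt_of_lt_of_le one_pos (le_max_right _ _))]
          exact le_max_left _ _
        have h3 : x ^ (ε * W / 2) = Real.exp (ε * W / 2 * Real.log x) := by
          rw [Real.rpow_def_of_pos (by linarith), mul_comm]
        rw [h3]
        calc C * Real.exp (ε * W / 2 * Real.log x) ≤
            Real.exp (Real.log (max C 1)) * Real.exp (ε * W / 2 * Real.log x) := by gcongr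
          _ = Real.exp (Real.log (max C 1) + ε * W / 2 * Real.log x) := (Real.exp_add _ _).symm
          _ ≤ Real.exp (ε * W * Real.log x) := Real.exp_le_exp.2 (by linarith)
      have h2 := prod_log hn hw h1
      have e : ε * W * Real.log x / W = ε * Real.log x := by field_simp
      rwa [← hWdef, e] at h2

end Pool.Agent.V7H83.LG
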