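import Pool.Agent.H983R4.GL.F1

/-!
Poisson-Jensen inequality for `log |F|` (not only `log⁺ |F|`) in the half plane `Re s ≥ 1/2`.
-/

set_option autoImplicit false
open MeasureTheory Filter Topology Set Real
open scoped ENNReal

namespace Pool.Agent.V7H83.LG

open Pool.Agent.H983R4.LH Pool.Agent.H983R4.GL

variable {F : ℂ → ℂ} {A B : ℝ}

/-- **Poisson-Jensen inequality in the half plane**, functions analytic on the closed half plane. -/
theorem poissonA (hd : ∀ s : ℂ, 1 / 2 ≤ s.re → AnalyticAt ℂ F s) (hB : 0 ≤ B)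
    (hF : ∀ s : ℂ, 1 / 2 ≤ s.re → log⁺ ‖F s‖ ≤ A + B * Real.log (‖s‖ + 1))
    {a : ℝ} (ha : 0 < a) (t : ℝ) :
    log⁺ ‖F (1 / 2 + a + t * Complex.I)‖ ≤
      (2 * π)⁻¹ * ∫ θ in (0:ℝ)..2 * π, log⁺ ‖F (1 / 2 + ((t + a * ct θ : ℝ) : ℂ) * Complex.I)‖ := by
  have hpi := Real.pi_pos
  have hlim : Tendsto (fun ρ : ℝ => ∫ θ in (0:ℝ)..2 * π, log⁺ ‖F (P a t (circleMap 0 ρ θ))‖)
      (𝓝[<] 1) (𝓝 (∫ θ in (0:ℝ)..2 * π, log⁺ ‖F (1 / 2 + ((t + a * ct θ : ℝ) : ℂ) * Complex.I)‖)) := by
    have hev : ∀ᶠ ρ : ℝ in 𝓝[<] (1:ℝ), 1 / 4 ≤ ρ ∧ ρ < 1 := by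
      have h1 : ∀ᶠ ρ : ℝ in 𝓝[<] (1:ℝ), 1 / 4 < ρ :=
        nhdsWithin_le_nhds (Ioi_mem_nhds (by norm_num))
      filter_upwards [h1, self_mem_nhdsWithin] with ρ h2 h3
      exact ⟨h2.le, h3⟩
    have hae : ∀ᵐ θ : ℝ ∂volume, θ ∈ Set.uIoc 0 (2 * π) → 0 < θ ∧ θ < 2 * π := by
      have : ∀ᵐ θ : ℝ ∂volume, θ ≠ 2 * π := by
        simp [ae_iff, measure_singleton]
      filter_upwards [this] with θ h1 h2
      rw [Set.uIoc_of_le (by positivity)] at h2
      exact ⟨h2.1, lt_of_le_of_ne h2.2 h1⟩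
    refine intervalIntegral.tendsto_integral_filter_of_dominated_convergence (BdF A B a t) ?_ ?_
      (BdF_integrable A B a t) ?_
    · filter_upwards [hev] with ρ ⟨h4, h1⟩
      have hρ : 0 < ρ := by linarith
      have hc : Continuous fun θ : ℝ => log⁺ ‖F (P a t (circleMap 0 ρ θ))‖ := by
        refine continuous_posLog.comp (continuous_norm.comp ?_)
        rw [continuous_iff_continuousAt]
        intro θ
        have hw : ‖circleMap 0 ρ θ‖ < 1 := by
          rw [norm_circleMap_zero, abs_of_pos hρ]; exact h1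
        have c1 : ContinuousAt (fun θ : ℝ => circleMap 0 ρ θ) θ := (continuous_circleMap 0 ρ).continuousAt
        have c2 : ContinuousAt (P a t) (circleMap 0 ρ θ) :=
          (P_differentiableAt a t (one_sub_ne hw)).continuousAt
        have c3 : ContinuousAt F (P a t (circleMap 0 ρ θ)) :=
          (hd _ (re_P (t := t) ha hw)).continuousAt
        exact ContinuousAt.comp (f := fun θ : ℝ => P a t (circleMap 0 ρ θ)) c3
          (ContinuousAt.comp (f := fun θ : ℝ => circleMap 0 ρ θ) c2 c1)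
      exact hc.aestronglyMeasurable
    · filter_upwards [hev] with ρ ⟨h4, h1⟩
      filter_upwards [hae] with θ h2 h3
      obtain ⟨h5, h6⟩ := h2 h3
      rw [Real.norm_eq_abs, abs_of_nonneg posLog_nonneg]
      exact domF hB hF ha h4 h1 (sin_half_pos h5 h6).ne'
    · filter_upwards [hae] with θ h2 h3
      obtain ⟨h5, h6⟩ := h2 h3
      have hs := sin_half_pos h5 h6
      rw [← P_circle a t h5 h6]
      have hne : 1 - circleMap 0 1 θ ≠ 0 := by
        have h7 := norm_one_sub (ρ := 1) (θ := θ) (by norm_num)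
        intro h
        rw [h, norm_zero] at h7
        exact hs.ne' (abs_eq_zero.1 (le_antisymm h7 (abs_nonneg _)))
      have c1 : Tendsto (fun ρ : ℝ => circleMap 0 ρ θ) (𝓝[<] 1) (𝓝 (circleMap 0 1 θ)) := by
        have : Continuous fun ρ : ℝ => circleMap 0 ρ θ := by
          unfold circleMap; fun_prop
        exact (this.tendsto 1).mono_left nhdsWithin_le_nhds
      have c2 : ContinuousAt (P a t) (circleMap 0 1 θ) := (P_differentiableAt a t hne).continuousAt
      have hre : 1 / 2 ≤ (P a t (circleMap 0 1 θ)).re := by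
        rw [P_circle a t h5 h6]
        simp
      have c3 : ContinuousAt F (P a t (circleMap 0 1 θ)) := (hd _ hre).continuousAt
      have c4 : Tendsto (fun ρ : ℝ => F (P a t (circleMap 0 ρ θ))) (𝓝[<] 1)
          (𝓝 (F (P a t (circleMap 0 1 θ)))) := c3.tendsto.comp (c2.tendsto.comp c1)
      exact (continuous_posLog.tendsto _).comp c4.norm
  have hge : ∀ᶠ ρ : ℝ in 𝓝[<] (1:ℝ), 2 * π * log⁺ ‖F (1 / 2 + a + t * Complex.I)‖ ≤
      ∫ θ in (0:ℝ)..2 * π, log⁺ ‖F (P a t (circleMap 0 ρ θ))‖ := by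
    have h1 : ∀ᶠ ρ : ℝ in 𝓝[<] (1:ℝ), 1 / 4 < ρ :=
      nhdsWithin_le_nhds (Ioi_mem_nhds (by norm_num))
    filter_upwards [h1, self_mem_nhdsWithin] with ρ h2 h3
    have hρ : 0 < ρ := by linarith
    have h3' : ρ < 1 := h3
    have h5 : AnalyticOnNhd ℂ (fun w => F (P a t w)) (Metric.closedBall 0 ρ) := by
      intro w hw
      have hw' : ‖w‖ < 1 := by
        rw [Metric.mem_closedBall, dist_zero_right] at hw
        linarith
      have c2 := P_differentiableAt a t (one_sub_ne hw')
      have c3 : AnalyticAt ℂ F (P a t w) := hd _ (re_P (t := t) ha hw')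
      exact c3.comp c2
    have h6 := posLog_submean hρ h5
    rw [P_zero, circleAverage_def, smul_eq_mul] at h6
    rw [← div_eq_inv_mul, le_div_iff₀ (by positivity)] at h6
    linarith
  have h2 := ge_of_tendsto hlim hge
  rw [← div_eq_inv_mul, le_div_iff₀ (by positivity)]
  linarith

/-- positive part of `log y` -/
noncomputable def pl (y : ℝ) : ℝ≥0∞ := ENNReal.ofReal (log⁺ y)

/-- negative part of `log y`, infinite at `y = 0` -/
noncomputable def nl (y : ℝ) : ℝ≥0∞ := if y = 0 then ⊤ else ENNReal.ofReal (-Real.log y)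

lemma pl_measurable : Measurable pl :=
  (continuous_posLog.measurable).ennreal_ofReal

lemma nl_measurable : Measurable nl := by
  unfold nl
  exact Measurable.ite (measurableSet_singleton 0) measurable_const
    (Real.measurable_log.neg.ennreal_ofReal)

/-- the circle with the uniform measure of total mass `2 π` -/
noncomputable def cm : Measure ℝ := volume.restrict (Set.Ioc 0 (2 * π))

lemma cm_univ : cm Set.univ = ENNReal.ofReal (2 * π) := by
  unfold cm
  rw [Measure.restrict_apply_univ, Real.volume_Ioc, sub_zero]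

instance : IsFiniteMeasure cm := by
  unfold cm
  exact ⟨by rw [Measure.restrict_apply_univ, Real.volume_Ioc]; exact ENNReal.ofReal_lt_top⟩

lemma ct_measurable : Measurable ct := by
  unfold ct
  exact (Real.measurable_cos.comp (measurable_id.div_const 2)).div
    (Real.measurable_sin.comp (measurable_id.div_const 2))

/-- the pointwise identity behind the truncation -/
lemma trunc_id (N : ℕ) {y : ℝ} (hy : 0 ≤ y) :
    ENNReal.ofReal (log⁺ (Real.exp N * y)) + min (nl y) N = N + pl y := by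
  rcases hy.eq_or_lt with h | h
  · rw [← h]
    simp [nl, pl]
  · have h1 : Real.log (Real.exp N * y) = N + Real.log y := by
      rw [Real.log_mul (Real.exp_pos _).ne' h.ne', Real.log_exp]
    have hN : (0:ℝ) ≤ N := Nat.cast_nonneg N
    have h2 : nl y = ENNReal.ofReal (-Real.log y) := by
      unfold nl; rw [if_neg h.ne']
    have h3 : (N : ℝ≥0∞) = ENNReal.ofReal (N : ℝ) := by simp
    rcases le_total 0 (Real.log y) with hl | hl
    · have e1 : log⁺ (Real.exp N * y) = N + Real.log y := by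
        rw [posLog_apply, h1, max_eq_right (by positivity)]
      have e2 : log⁺ y = Real.log y := by rw [posLog_apply, max_eq_right hl]
      rw [h2, pl, e1, e2, ENNReal.ofReal_of_nonpos (by linarith : -Real.log y ≤ 0),
        ENNReal.ofReal_add hN hl, h3]
      simp
    · have e2 : log⁺ y = 0 := by rw [posLog_apply, max_eq_left hl]
      rw [h2, pl, e2, ENNReal.ofReal_zero, add_zero, h3]
      rcases le_total (N : ℝ) (-Real.log y) with h4 | h4
      · have e1 : log⁺ (Real.exp N * y) = 0 := by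
          rw [posLog_apply, h1, max_eq_left (by linarith)]
        rw [e1, ENNReal.ofReal_zero, zero_add, min_eq_right (ENNReal.ofReal_le_ofReal h4)]
      · have e1 : log⁺ (Real.exp N * y) = N + Real.log y := by
          rw [posLog_apply, h1, max_eq_right (by linarith)]
        rw [e1, min_eq_left (ENNReal.ofReal_le_ofReal h4),
          ← ENNReal.ofReal_add (by linarith) (by linarith)]
        congr 1
        ring

/-- **Poisson-Jensen for `log |F|`**: positive and negative parts. -/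
theorem pj (hd : ∀ s : ℂ, 1 / 2 ≤ s.re → AnalyticAt ℂ F s) (hB : 0 ≤ B)
    (hF : ∀ s : ℂ, 1 / 2 ≤ s.re → log⁺ ‖F s‖ ≤ A + B * Real.log (‖s‖ + 1))
    {a : ℝ} (ha : 0 < a) (t : ℝ) {g D : ℝ} (hg : 0 ≤ g) (hD : 0 ≤ D)
    (h0 : Real.exp (g - D) ≤ ‖F (1 / 2 + a + t * Complex.I)‖) :
    (∫⁻ θ, nl ‖F (1 / 2 + ((t + a * ct θ : ℝ) : ℂ) * Complex.I)‖ ∂cm) +
        ENNReal.ofReal (2 * π * g) ≤
      (∫⁻ θ, pl ‖F (1 / 2 + ((t + a * ct θ : ℝ) : ℂ) * Complex.I)‖ ∂cm) +
        ENNReal.ofReal (2 * π * D) := by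
  have hpi := Real.pi_pos
  set f : ℝ → ℝ := fun θ => ‖F (1 / 2 + ((t + a * ct θ : ℝ) : ℂ) * Complex.I)‖ with hf
  have hfm : Measurable f := by
    have h1 : Continuous fun x : ℝ => ‖F (1 / 2 + (x : ℂ) * Complex.I)‖ := by
      refine continuous_norm.comp ?_
      rw [continuous_iff_continuousAt]
      intro x
      have h2 : ContinuousAt F (1 / 2 + (x : ℂ) * Complex.I) := (hd _ (by simp)).continuousAt
      exact ContinuousAt.comp (f := fun x : ℝ => (1 / 2 + (x : ℂ) * Complex.I)) h2 (by fun_prop)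
    exact h1.measurable.comp ((ct_measurable.const_mul a).const_add t)
  have hfn : ∀ θ, 0 ≤ f θ := fun θ => norm_nonneg _
  -- truncated inequality
  have key : ∀ N : ℕ, D ≤ N → (∫⁻ θ, min (nl (f θ)) N ∂cm) + ENNReal.ofReal (2 * π * g) ≤
      (∫⁻ θ, pl (f θ) ∂cm) + ENNReal.ofReal (2 * π * D) := by
    intro N hN
    have hN0 : (0:ℝ) ≤ N := Nat.cast_nonneg N
    have h1 := poissonA (F := fun s => (Real.exp N : ℂ) * F s) (A := A + N) (B := B)
      (fun s hs => analyticAt_const.mul (hd s hs)) hB (fun s hs => by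
        rw [norm_mul, Complex.norm_real, Real.norm_eq_abs, abs_of_pos (Real.exp_pos _)]
        have h2 : log⁺ (Real.exp N * ‖F s‖) ≤ log⁺ (Real.exp N) + log⁺ ‖F s‖ := posLog_mul
        have h3 : log⁺ (Real.exp (N:ℝ)) = N := by
          rw [posLog_apply, Real.log_exp, max_eq_right hN0]
        have := hF s hs
        linarith) ha t
    rw [← div_eq_inv_mul, le_div_iff₀ (by positivity),
      intervalIntegral.integral_of_le (by positivity)] at h1
    simp only [norm_mul, Complex.norm_real, Real.norm_eq_abs, abs_of_pos (Real.exp_pos _)] at h1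
    have h2 : (N : ℝ) + g - D ≤ log⁺ (Real.exp N * ‖F (1 / 2 + a + t * Complex.I)‖) := by
      rw [posLog_apply]
      refine le_trans ?_ (le_max_right _ _)
      have h3 : Real.exp (N + g - D) ≤ Real.exp N * ‖F (1 / 2 + a + t * Complex.I)‖ := by
        rw [show (N:ℝ) + g - D = N + (g - D) by ring, Real.exp_add]
        exact mul_le_mul_of_nonneg_left h0 (Real.exp_pos _).le
      have h4 := Real.log_le_log (Real.exp_pos _) h3
      rwa [Real.log_exp] at h4
    have h3 : 2 * π * ((N : ℝ) + g - D) ≤ ∫ θ in Set.Ioc 0 (2 * π), log⁺ (Real.exp N * f θ) := by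
      have := mul_le_mul_of_nonneg_left h2 (by positivity : (0:ℝ) ≤ 2 * π)
      linarith
    have h4 : ENNReal.ofReal (2 * π * ((N : ℝ) + g - D)) ≤
        ∫⁻ θ, ENNReal.ofReal (log⁺ (Real.exp N * f θ)) ∂cm := by
      refine (ENNReal.ofReal_le_ofReal h3).trans ?_
      rw [integral_eq_lintegral_of_nonneg_ae (Eventually.of_forall fun θ => posLog_nonneg)
        (continuous_posLog.measurable.comp (hfm.const_mul _)).aestronglyMeasurable]
      exact ENNReal.ofReal_toReal_le
    have h5 : (∫⁻ θ, ENNReal.ofReal (log⁺ (Real.exp N * f θ)) ∂cm) + ∫⁻ θ, min (nl (f θ)) N ∂cm =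
        ENNReal.ofReal (2 * π * N) + ∫⁻ θ, pl (f θ) ∂cm := by
      have hm1 : Measurable fun θ => ENNReal.ofReal (log⁺ (Real.exp N * f θ)) :=
        (continuous_posLog.measurable.comp (hfm.const_mul _)).ennreal_ofReal
      rw [← lintegral_add_left hm1]
      have e1 : (N : ℝ≥0∞) * ENNReal.ofReal (2 * π) = ENNReal.ofReal (2 * π * N) := by
        rw [ENNReal.ofReal_mul (p := 2 * π) (by positivity), ENNReal.ofReal_natCast, mul_comm]
      rw [lintegral_congr fun θ => trunc_id N (hfn θ), lintegral_add_left measurable_const,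
        lintegral_const, cm_univ, e1]
    have h6 : ENNReal.ofReal (2 * π * ((N : ℝ) + g - D)) + ENNReal.ofReal (2 * π * D) =
        ENNReal.ofReal (2 * π * N) + ENNReal.ofReal (2 * π * g) := by
      rw [← ENNReal.ofReal_add (by have : 0 ≤ (N:ℝ) + g - D := by linarith
                                   positivity) (by positivity),
        ← ENNReal.ofReal_add (by positivity) (by positivity)]
      congr 1
      ring
    have hfin : ENNReal.ofReal (2 * π * N) ≠ ⊤ := ENNReal.ofReal_ne_top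
    refine (ENNReal.add_le_add_iff_left hfin).1 ?_
    calc ENNReal.ofReal (2 * π * N) + ((∫⁻ θ, min (nl (f θ)) N ∂cm) + ENNReal.ofReal (2 * π * g))
        = (ENNReal.ofReal (2 * π * ((N : ℝ) + g - D)) + ENNReal.ofReal (2 * π * D)) +
          ∫⁻ θ, min (nl (f θ)) N ∂cm := by rw [h6]; ring
      _ ≤ ((∫⁻ θ, ENNReal.ofReal (log⁺ (Real.exp N * f θ)) ∂cm) + ENNReal.ofReal (2 * π * D)) +
          ∫⁻ θ, min (nl (f θ)) N ∂cm := by gcongr
      _ = ((∫⁻ θ, ENNReal.ofReal (log⁺ (Real.exp N * f θ)) ∂cm) +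
          ∫⁻ θ, min (nl (f θ)) N ∂cm) + ENNReal.ofReal (2 * π * D) := by ring
      _ = _ := by rw [h5]; ring
  -- monotone convergence
  have hsup : (∫⁻ θ, nl (f θ) ∂cm) = ⨆ N : ℕ, ∫⁻ θ, min (nl (f θ)) N ∂cm := by
    rw [← lintegral_iSup]
    · refine lintegral_congr fun θ => ?_
      refine le_antisymm ?_ (iSup_le fun N => min_le_left _ _)
      have h7 : Tendsto (fun N : ℕ => min (nl (f θ)) (N : ℝ≥0∞)) atTop (𝓝 (min (nl (f θ)) ⊤)) :=
        tendsto_const_nhds.min ENNReal.tendsto_nat_nhds_top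
      rw [min_top_right] at h7
      exact le_of_tendsto' h7 fun N => le_iSup (fun N : ℕ => min (nl (f θ)) (N : ℝ≥0∞)) N
    · intro N
      exact (nl_measurable.comp hfm).min measurable_const
    · intro N M hNM θ
      exact min_le_min_left _ (by exact_mod_cast hNM)
  rw [hsup, ENNReal.iSup_add]
  refine iSup_le fun N => ?_
  obtain ⟨M, hM⟩ := exists_nat_ge D
  refine le_trans ?_ (key (max N M) (hM.trans (by exact_mod_cast le_max_right N M)))
  gcongr
  exact le_max_left N M

end Pool.Agent.V7H83.LG
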