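import Pool.Agent.V7H83.LG.A1

/-!
Poisson-Jensen inequality in the half plane, with the contribution of the zeros.
-/

set_option autoImplicit false
open MeasureTheory Filter Topology Set Real
open scoped ENNReal ComplexConjugate

namespace Pool.Agent.V7H83.LG

open Pool.Agent.H983R4.LH Pool.Agent.H983R4.GL

lemma dslope_analytic {F : ℂ → ℂ} {z s : ℂ} (hz : AnalyticAt ℂ F z) (hs : AnalyticAt ℂ F s) :
    AnalyticAt ℂ (dslope F z) s := by
  by_cases h : s = z
  · subst h
    obtain ⟨p, hp⟩ := hz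
    exact ⟨_, hp.has_fpower_series_dslope_fslope⟩
  · refine AnalyticAt.congr ?_ (dslope_eventuallyEq_slope_of_ne F h).symm
    unfold slope
    have h1 : AnalyticAt ℂ (fun b => (b - z)⁻¹) s :=
      (analyticAt_id.sub analyticAt_const).inv (sub_ne_zero.2 h)
    exact h1.smul (hs.sub analyticAt_const)

/-- division by linear factors -/
lemma divide {U : Set ℂ} (m : Multiset ℂ) : ∀ {F : ℂ → ℂ}, (∀ s ∈ U, AnalyticAt ℂ F s) →
    (∀ z ∈ m, z ∈ U ∧ (m.count z : ℕ∞) ≤ analyticOrderAt F z) →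
    ∃ G : ℂ → ℂ, (∀ s ∈ U, AnalyticAt ℂ G s) ∧ ∀ s, F s = (m.map fun z => s - z).prod * G s := by
  classical
  induction m using Multiset.induction with
  | empty =>
    intro F hF _
    exact ⟨F, hF, fun s => by simp⟩
  | cons z m ih =>
    intro F hF hm
    obtain ⟨hzU, hz⟩ := hm z (Multiset.mem_cons_self z m)
    have h0 : analyticOrderAt F z ≠ 0 := by
      intro h
      rw [h, Multiset.count_cons_self] at hz
      simp at hz
    have hFz : F z = 0 := apply_eq_zero_of_analyticOrderAt_ne_zero h0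
    have hG1 : ∀ s ∈ U, AnalyticAt ℂ (dslope F z) s := fun s hs => dslope_analytic (hF z hzU) (hF s hs)
    have hfac : F = fun s => (s - z) * dslope F z s := by
      funext s
      have := sub_smul_dslope F z s
      rw [hFz, sub_zero, smul_eq_mul] at this
      exact this.symm
    have hlin : ∀ w : ℂ, AnalyticAt ℂ (fun s : ℂ => s - z) w := fun w => by fun_prop
    obtain ⟨G, hG, hGm⟩ := ih hG1 (fun w hw => by
      obtain ⟨hwU, hw2⟩ := hm w (Multiset.mem_cons_of_mem hw)
      refine ⟨hwU, ?_⟩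
      have e1 : analyticOrderAt F w = analyticOrderAt (fun s : ℂ => s - z) w +
          analyticOrderAt (dslope F z) w := by
        conv_lhs => rw [hfac]
        exact analyticOrderAt_mul (hlin w) (hG1 w hwU)
      by_cases hwz : w = z
      · subst hwz
        rw [e1, Multiset.count_cons_self, analyticOrderAt_id_sub_const_self] at hw2
        push_cast at hw2
        rw [add_comm] at hw2
        exact (ENat.add_le_add_iff_left ENat.one_ne_top).1 hw2
      · rw [e1, Multiset.count_cons_of_ne hwz, analyticOrderAt_id_sub_const_of_ne hwz, zero_add] at hw2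
        exact hw2)
    refine ⟨G, hG, fun s => ?_⟩
    rw [Multiset.map_cons, Multiset.prod_cons, mul_assoc, ← hGm s]
    exact congrFun hfac s

/-- the reflection of `z` in the line `Re s = 1/2` -/
noncomputable def rf (z : ℂ) : ℂ := 1 - conj z

lemma rf_norm {w z : ℂ} (hw : w.re = 1 / 2) : ‖w - rf z‖ = ‖w - z‖ := by
  unfold rf
  rw [Complex.norm_def, Complex.norm_def]
  congr 1
  simp only [Complex.normSq_apply, Complex.sub_re, Complex.sub_im, Complex.one_re, Complex.one_im,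
    Complex.conj_re, Complex.conj_im, hw]
  ring

lemma prod_norm (m : Multiset ℂ) (f : ℂ → ℂ) : ‖(m.map f).prod‖ = (m.map fun z => ‖f z‖).prod := by
  induction m using Multiset.induction with
  | empty => simp
  | cons z m ih => simp [ih]

/-- the gain of the zeros in the multiset `m` at the point `s` -/
noncomputable def gn (m : Multiset ℂ) (s : ℂ) : ℝ :=
  (m.map fun z => Real.log (‖s - rf z‖ / ‖s - z‖)).sum

lemma exists_bound (m : Multiset ℂ) : ∃ R : ℝ, 0 ≤ R ∧ ∀ z ∈ m, ‖z‖ ≤ R := by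
  classical
  obtain ⟨R, hR⟩ := (m.toFinset.image fun z => ‖z‖).finite_toSet.bddAbove
  refine ⟨max R 0, le_max_right _ _, fun z hz => le_max_of_le_left (hR ?_)⟩
  simp only [Finset.coe_image, Set.mem_image, Finset.mem_coe, Multiset.mem_toFinset]
  exact ⟨z, hz, rfl⟩

lemma prod_le (m : Multiset ℂ) (f g : ℂ → ℂ) {c : ℝ} (hc : 0 ≤ c)
    (h : ∀ z ∈ m, ‖f z‖ ≤ c * ‖g z‖) :
    ‖(m.map f).prod‖ ≤ c ^ (Multiset.card m) * ‖(m.map g).prod‖ := by
  induction m using Multiset.induction with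
  | empty => simp
  | cons z m ih =>
    have h1 := h z (Multiset.mem_cons_self z m)
    have h2 := ih fun w hw => h w (Multiset.mem_cons_of_mem hw)
    rw [Multiset.map_cons, Multiset.prod_cons, Multiset.map_cons, Multiset.prod_cons, norm_mul,
      norm_mul, Multiset.card_cons, pow_succ]
    calc ‖f z‖ * ‖(m.map f).prod‖ ≤ (c * ‖g z‖) * (c ^ (Multiset.card m) * ‖(m.map g).prod‖) := by
          gcongr
      _ = _ := by ring

lemma prod_eq_exp (m : Multiset ℂ) (s : ℂ) (h1 : ∀ z ∈ m, s ≠ z) (h2 : ∀ z ∈ m, s ≠ rf z) :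
    ‖(m.map fun z => s - rf z).prod‖ = Real.exp (gn m s) * ‖(m.map fun z => s - z).prod‖ := by
  unfold gn
  induction m using Multiset.induction with
  | empty => simp
  | cons z m ih =>
    have e := ih (fun w hw => h1 w (Multiset.mem_cons_of_mem hw))
      (fun w hw => h2 w (Multiset.mem_cons_of_mem hw))
    have ha := norm_pos_iff.2 (sub_ne_zero.2 (h1 z (Multiset.mem_cons_self z m)))
    have hb := norm_pos_iff.2 (sub_ne_zero.2 (h2 z (Multiset.mem_cons_self z m)))
    rw [Multiset.map_cons, Multiset.prod_cons, Multiset.map_cons, Multiset.sum_cons,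
      Multiset.map_cons, Multiset.prod_cons, norm_mul, norm_mul, e, Real.exp_add,
      Real.exp_log (by positivity)]
    field_simp

variable {F : ℂ → ℂ} {A B : ℝ}

/-- **Poisson-Jensen with zeros.** -/
theorem pjz (hd : ∀ s : ℂ, 1 / 2 ≤ s.re → AnalyticAt ℂ F s) (hB : 0 ≤ B)
    (hF : ∀ s : ℂ, 1 / 2 ≤ s.re → log⁺ ‖F s‖ ≤ A + B * Real.log (‖s‖ + 1))
    {a : ℝ} (ha : 0 < a) (t : ℝ) {m : Multiset ℂ}
    (hm : ∀ z ∈ m, 1 / 2 < z.re ∧ (m.count z : ℕ∞) ≤ analyticOrderAt F z)
    {g D : ℝ} (hg : 0 ≤ g) (hgn : g ≤ gn m (1 / 2 + a + t * Complex.I)) (hD : 0 ≤ D)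
    (h0 : Real.exp (-D) ≤ ‖F (1 / 2 + a + t * Complex.I)‖) :
    (∫⁻ θ, nl ‖F (1 / 2 + ((t + a * ct θ : ℝ) : ℂ) * Complex.I)‖ ∂cm) +
        ENNReal.ofReal (2 * π * g) ≤
      (∫⁻ θ, pl ‖F (1 / 2 + ((t + a * ct θ : ℝ) : ℂ) * Complex.I)‖ ∂cm) +
        ENNReal.ofReal (2 * π * D) := by
  set s₀ : ℂ := 1 / 2 + a + t * Complex.I with hs₀
  have hs₀re : s₀.re = 1 / 2 + a := by simp [hs₀]
  obtain ⟨G, hG, hfac⟩ := divide (U := {s : ℂ | 1 / 2 ≤ s.re}) m (F := F) (fun s hs => hd s hs)
    (fun z hz => ⟨(hm z hz).1.le, (hm z hz).2⟩)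
  set F₁ : ℂ → ℂ := fun s => (m.map fun z => s - rf z).prod * G s with hF₁
  have hlin : ∀ s : ℂ, AnalyticAt ℂ (fun s => (m.map fun z => s - rf z).prod) s := by
    intro s
    clear hgn hfac hF₁ F₁ hm
    induction m using Multiset.induction with
    | empty => simpa using analyticAt_const
    | cons z m ih =>
      simp only [Multiset.map_cons, Multiset.prod_cons]
      exact (analyticAt_id.sub analyticAt_const).mul ih
  have hd₁ : ∀ s : ℂ, 1 / 2 ≤ s.re → AnalyticAt ℂ F₁ s := fun s hs => (hlin s).mul (hG s hs)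
  have hline : ∀ x : ℝ, ‖F₁ (1 / 2 + (x : ℂ) * Complex.I)‖ = ‖F (1 / 2 + (x : ℂ) * Complex.I)‖ := by
    intro x
    have hre : (1 / 2 + (x : ℂ) * Complex.I).re = 1 / 2 := by simp
    rw [hF₁, hfac, norm_mul, norm_mul, prod_norm, prod_norm]
    congr 3
    funext z
    exact rf_norm hre
  have hFs : F s₀ ≠ 0 := by
    intro h
    rw [h, norm_zero] at h0
    exact absurd h0 (not_le.2 (Real.exp_pos _))
  have hne1 : ∀ z ∈ m, s₀ ≠ z := by
    intro z hz h
    refine hFs (apply_eq_zero_of_analyticOrderAt_ne_zero fun h3 => ?_)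
    have h4 := (hm z hz).2
    rw [← h, h3] at h4
    have h5 : 0 < m.count s₀ := Multiset.count_pos.2 (h ▸ hz)
    have h6 : (m.count s₀ : ℕ∞) = 0 := le_antisymm h4 zero_le
    have h7 : m.count s₀ = 0 := by exact_mod_cast h6
    omega
  have hne2 : ∀ z ∈ m, s₀ ≠ rf z := by
    intro z hz h
    have h3 := congrArg Complex.re h
    rw [hs₀re] at h3
    simp only [rf, Complex.sub_re, Complex.one_re, Complex.conj_re] at h3
    have := (hm z hz).1
    linarith
  have hval : ‖F₁ s₀‖ = Real.exp (gn m s₀) * ‖F s₀‖ := by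
    rw [hF₁, hfac s₀, norm_mul, norm_mul, prod_eq_exp m s₀ hne1 hne2, mul_assoc]
  have hval2 : Real.exp (g - D) ≤ ‖F₁ s₀‖ := by
    rw [hval, sub_eq_add_neg, Real.exp_add]
    exact mul_le_mul (Real.exp_le_exp.2 hgn) h0 (Real.exp_pos _).le (Real.exp_pos _).le
  -- growth
  obtain ⟨R, hR0, hR⟩ := exists_bound m
  obtain ⟨M, hM⟩ : ∃ M : ℝ, ∀ s : ℂ, 1 / 2 ≤ s.re → ‖s‖ ≤ 2 * R + 2 → ‖F₁ s‖ ≤ M := by
    have hK : IsCompact (Metric.closedBall (0:ℂ) (2 * R + 2) ∩ {s : ℂ | 1 / 2 ≤ s.re}) :=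
      (isCompact_closedBall _ _).inter_right (isClosed_le continuous_const Complex.continuous_re)
    have hc : ContinuousOn F₁ (Metric.closedBall (0:ℂ) (2 * R + 2) ∩ {s : ℂ | 1 / 2 ≤ s.re}) :=
      fun s hs => (hd₁ s hs.2).continuousAt.continuousWithinAt
    obtain ⟨M, hM⟩ := hK.exists_bound_of_continuousOn hc
    exact ⟨M, fun s h1 h2 => hM s ⟨by rw [Metric.mem_closedBall, dist_zero_right]; exact h2, h1⟩⟩
  have hgrow : ∀ s : ℂ, 1 / 2 ≤ s.re → log⁺ ‖F₁ s‖ ≤
      (|A| + Multiset.card m * Real.log 3 + log⁺ M) + B * Real.log (‖s‖ + 1) := by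
    intro s hs
    have hlog : 0 ≤ Real.log (‖s‖ + 1) := Real.log_nonneg (by have := norm_nonneg s; linarith)
    have hl3 : 0 ≤ Real.log 3 := Real.log_nonneg (by norm_num)
    have hMn : 0 ≤ log⁺ M := posLog_nonneg
    have hcard : (0:ℝ) ≤ Multiset.card m * Real.log 3 := by positivity
    rcases le_or_gt ‖s‖ (2 * R + 2) with h1 | h1
    · have h2 := posLog_le_posLog (norm_nonneg _) (hM s hs h1)
      have := abs_nonneg A
      have := mul_nonneg hB hlog
      linarith
    · have h2 : ‖(m.map fun z => s - rf z).prod‖ ≤ 3 ^ (Multiset.card m) *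
          ‖(m.map fun z => s - z).prod‖ := by
        refine prod_le m _ _ (by norm_num) fun z hz => ?_
        have h3 := hR z hz
        have h4 : ‖s - rf z‖ ≤ ‖s‖ + 1 + R := by
          unfold rf
          calc ‖s - (1 - conj z)‖ = ‖s - 1 + conj z‖ := by congr 1; ring
            _ ≤ ‖s - 1‖ + ‖conj z‖ := norm_add_le _ _
            _ ≤ (‖s‖ + ‖(1:ℂ)‖) + ‖z‖ := by
                rw [Complex.norm_conj]; gcongr; exact norm_sub_le _ _
            _ ≤ ‖s‖ + 1 + R := by rw [norm_one]; linarith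
        have h5 : ‖s‖ - R ≤ ‖s - z‖ := by
          have := norm_sub_norm_le s z
          linarith
        linarith
      have h3 : ‖F₁ s‖ ≤ 3 ^ (Multiset.card m) * ‖F s‖ := by
        rw [hF₁, hfac s, norm_mul, norm_mul, ← mul_assoc]
        exact mul_le_mul_of_nonneg_right h2 (norm_nonneg _)
      have h4 := posLog_le_posLog (norm_nonneg _) h3
      have h5 : log⁺ ((3:ℝ) ^ (Multiset.card m) * ‖F s‖) ≤ log⁺ ((3:ℝ) ^ (Multiset.card m)) +
        log⁺ ‖F s‖ := posLog_mul
      have h6 : log⁺ ((3:ℝ) ^ (Multiset.card m)) = Multiset.card m * Real.log 3 := by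
        rw [posLog_apply, Real.log_pow, max_eq_right hcard]
      have h7 := hF s hs
      have := le_abs_self A
      linarith
  have key := pj hd₁ hB hgrow ha t hg hD hval2
  simp only [hline] at key
  exact key

end Pool.Agent.V7H83.LG
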