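import Pool.Agent.V7H83.LG.A2
import Pool.Agent.H31R2.DH.BackZeta
import Pool.Agent.H437R2.A1

/-!
Poisson-Jensen inequality with zeros for the zeta function, on lines of all scales.
-/

set_option autoImplicit false
open MeasureTheory Filter Topology Set Real
open scoped ENNReal ComplexConjugate

namespace Pool.Agent.V7H83.LG

open Pool.Agent.H983R4.LH Pool.Agent.H983R4.GL

/-- `|ζ(1/2 + i x)|` -/
noncomputable def Z (x : ℝ) : ℝ := ‖riemannZeta (1 / 2 + x * Complex.I)‖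

lemma Z_nonneg (x : ℝ) : 0 ≤ Z x := norm_nonneg _

/-- `(s - 1) ζ(s) / s` -/
noncomputable def W (s : ℂ) : ℂ := riemannZeta₁ s / s

lemma ne_zero_of_re {s : ℂ} (hs : 1 / 2 ≤ s.re) : s ≠ 0 := by
  rintro rfl
  simp at hs
  linarith

lemma W_analyticAt {s : ℂ} (hs : 1 / 2 ≤ s.re) : AnalyticAt ℂ W s := by
  have h : s ≠ 0 := ne_zero_of_re hs
  exact AnalyticAt.div (differentiable_riemannZeta₁.analyticAt s) analyticAt_id h

lemma W_line (x : ℝ) : ‖W (1 / 2 + x * Complex.I)‖ = Z x := by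
  have h1 : (1 / 2 + (x : ℂ) * Complex.I) ≠ 1 := by
    intro h
    have := congrArg Complex.re h
    simp at this
  have h0 : (1 / 2 + (x : ℂ) * Complex.I) ≠ 0 := ne_zero_of_re (by simp)
  have h2 : ‖(1 / 2 + (x : ℂ) * Complex.I) - 1‖ = ‖(1 / 2 + (x : ℂ) * Complex.I)‖ := by
    rw [Complex.norm_def, Complex.norm_def]
    congr 1
    simp only [Complex.normSq_apply, Complex.sub_re, Complex.sub_im, Complex.one_re, Complex.one_im,
      Complex.add_re, Complex.add_im, Complex.mul_re, Complex.mul_im, Complex.ofReal_re,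
      Complex.ofReal_im, Complex.I_re, Complex.I_im]
    norm_num
  unfold W Z
  rw [Pool.Agent.H437R2.z1_of_ne h1, norm_div, norm_mul, h2,
    mul_div_cancel_left₀ _ (norm_ne_zero_iff.2 h0)]

lemma W_growth (s : ℂ) (hs : 1 / 2 ≤ s.re) :
    log⁺ ‖W s‖ ≤ Real.log 6 + 2 * Real.log (‖s‖ + 1) := by
  have h0 : (0:ℝ) ≤ ‖s‖ := norm_nonneg _
  have h1 : ‖W s‖ ≤ 6 * (‖s‖ + 1) ^ 2 := by
    have h2 := Pool.Agent.H437R2.z1_norm_le hs
    have h3 : 1 / 2 ≤ ‖s‖ := hs.trans ((le_abs_self _).trans (Complex.abs_re_le_norm s))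
    unfold W
    rw [norm_div, div_le_iff₀ (by linarith)]
    have h4 : 0 ≤ 3 * (‖s‖ + 1) ^ 2 := by positivity
    nlinarith
  have h2 := posLog_le_posLog (norm_nonneg _) h1
  have h3 : log⁺ (6 * (‖s‖ + 1) ^ 2) = Real.log 6 + 2 * Real.log (‖s‖ + 1) := by
    rw [posLog_eq_log, Real.log_mul (by norm_num) (by positivity), Real.log_pow]
    · push_cast; ring
    · rw [abs_of_nonneg (by positivity)]
      nlinarith
  linarith

lemma zeta_an {z : ℂ} (hz : z ≠ 1) : AnalyticAt ℂ riemannZeta z := by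
  have : DifferentiableOn ℂ riemannZeta ({1}ᶜ : Set ℂ) := fun z hz =>
      (differentiableAt_riemannZeta hz).differentiableWithinAt
  exact this.analyticAt (isOpen_compl_singleton.mem_nhds hz)

lemma W_order {z : ℂ} (hz : z ≠ 1) (h : 1 / 2 ≤ z.re) :
    analyticOrderAt riemannZeta z ≤ analyticOrderAt W z := by
  have h0 : z ≠ 0 := ne_zero_of_re h
  have e : W =ᶠ[𝓝 z] (fun s => riemannZeta s * ((s - 1) / s)) := by
    filter_upwards [isOpen_compl_singleton.mem_nhds hz] with s hs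
    unfold W
    rw [Pool.Agent.H437R2.z1_of_ne hs]
    ring
  rw [analyticOrderAt_congr e]
  have h2 : AnalyticAt ℂ (fun s : ℂ => (s - 1) / s) z :=
    AnalyticAt.div (analyticAt_id.sub analyticAt_const) analyticAt_id h0
  have h3 := analyticOrderAt_mul (zeta_an hz) h2
  rw [show (fun s => riemannZeta s * ((s - 1) / s)) = riemannZeta * fun s : ℂ => (s - 1) / s from rfl, h3]
  exact le_self_add

lemma W_lower : ∃ D : ℝ, 0 ≤ D ∧ ∀ s : ℂ, 3 / 2 ≤ s.re → Real.exp (-D) ≤ ‖W s‖ := by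
  obtain ⟨A, hA1, hA⟩ := DH31.zeta_bounds (a := 3 / 2) (by norm_num)
  refine ⟨Real.log (3 * A), Real.log_nonneg (by linarith), fun s hs => ?_⟩
  have hA0 : 0 < A := by linarith
  rw [Real.exp_neg, Real.exp_log (by positivity)]
  have h1 : s ≠ 1 := by
    rintro rfl
    simp at hs
    norm_num at hs
  have h0 : s ≠ 0 := ne_zero_of_re (by linarith)
  have h2 : 1 / 2 ≤ ‖s - 1‖ := by
    have := Complex.abs_re_le_norm (s - 1)
    rw [Complex.sub_re, Complex.one_re] at this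
    have := le_abs_self (s.re - 1)
    linarith
  have h3 : ‖s‖ ≤ 3 * ‖s - 1‖ := by
    have h4 : ‖s‖ ≤ ‖s - 1‖ + ‖(1:ℂ)‖ := by
      have := norm_add_le (s - 1) 1
      rwa [sub_add_cancel] at this
    rw [norm_one] at h4
    linarith
  have h5 := (hA s hs).2
  have hs0 : 0 < ‖s‖ := norm_pos_iff.2 h0
  unfold W
  rw [Pool.Agent.H437R2.z1_of_ne h1, norm_div, norm_mul, le_div_iff₀ hs0]
  calc (3 * A)⁻¹ * ‖s‖ ≤ (3 * A)⁻¹ * (3 * ‖s - 1‖) := by gcongr
    _ = ‖s - 1‖ * (1 / A) := by field_simp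
    _ ≤ ‖s - 1‖ * ‖riemannZeta s‖ := by gcongr

/-- the multiset `m` consists of zeros of zeta with real part at least `1/2 + b` and
distance at most `1` from the height `t`, multiplicities allowed -/
def ZM (b t : ℝ) (m : Multiset ℂ) : Prop :=
  ∀ z ∈ m, 1 / 2 + b ≤ z.re ∧ |z.im - t| ≤ 1 ∧ (m.count z : ℕ∞) ≤ analyticOrderAt riemannZeta z

lemma re_lt_one_of_order {z : ℂ} {n : ℕ} (hn : 0 < n) (h : (n : ℕ∞) ≤ analyticOrderAt riemannZeta z)
    (hz : z ≠ 1) : z.re < 1 := by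
  by_contra hcon
  push Not at hcon
  have h1 : riemannZeta z ≠ 0 := riemannZeta_ne_zero_of_one_le_re hcon
  have h2 : analyticOrderAt riemannZeta z = 0 := (zeta_an hz).analyticOrderAt_eq_zero.2 h1
  rw [h2] at h
  have : (n : ℕ∞) = 0 := le_antisymm h zero_le
  have : n = 0 := by exact_mod_cast this
  omega

/-- the gain of one zero -/
lemma gain_one {z : ℂ} {a b R t : ℝ} (ha : 1 ≤ a) (hb : 0 < b) (hzb : 1 / 2 + b ≤ z.re) (hz1 : z.re < 1)
    (him : |z.im - t| ≤ R) :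
    (1 / 2) * Real.log (1 + 4 * a * b / (a ^ 2 + R ^ 2)) ≤
      Real.log (‖(1 / 2 + a + t * Complex.I : ℂ) - rf z‖ / ‖(1 / 2 + a + t * Complex.I : ℂ) - z‖) := by
  set s : ℂ := 1 / 2 + a + t * Complex.I with hs
  have hsre : s.re = 1 / 2 + a := by simp [hs]
  have hsim : s.im = t := by simp [hs]
  have e1 : ‖s - rf z‖ ^ 2 = (a + (z.re - 1 / 2)) ^ 2 + (t - z.im) ^ 2 := by
    rw [← Complex.normSq_eq_norm_sq, Complex.normSq_apply]
    simp only [rf, Complex.sub_re, Complex.sub_im, Complex.one_re, Complex.one_im,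
      Complex.conj_re, Complex.conj_im, hsre, hsim]
    ring
  have e2 : ‖s - z‖ ^ 2 = (a - (z.re - 1 / 2)) ^ 2 + (t - z.im) ^ 2 := by
    rw [← Complex.normSq_eq_norm_sq, Complex.normSq_apply]
    simp only [Complex.sub_re, Complex.sub_im, hsre, hsim]
    ring
  have h2pos : 0 < ‖s - z‖ := by
    rw [norm_pos_iff]
    intro h
    have := congrArg Complex.re h
    rw [Complex.sub_re, hsre, Complex.zero_re] at this
    linarith
  have him2 : (t - z.im) ^ 2 ≤ R ^ 2 := by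
    have h1 : |t - z.im| ≤ R := by rwa [abs_sub_comm]
    calc (t - z.im) ^ 2 = |t - z.im| ^ 2 := (sq_abs _).symm
      _ ≤ R ^ 2 := by gcongr
  have h3 : 1 + 4 * a * b / (a ^ 2 + R ^ 2) ≤ (‖s - rf z‖ / ‖s - z‖) ^ 2 := by
    rw [div_pow, le_div_iff₀ (by positivity)]
    have h4 : ‖s - z‖ ^ 2 ≤ a ^ 2 + R ^ 2 := by
      rw [e2]
      nlinarith
    have h5 : 4 * a * b / (a ^ 2 + R ^ 2) * ‖s - z‖ ^ 2 ≤ 4 * a * b := by
      rw [div_mul_eq_mul_div, div_le_iff₀ (by positivity)]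
      have : 0 ≤ 4 * a * b := by positivity
      exact mul_le_mul_of_nonneg_left h4 this
    have h6 : ‖s - rf z‖ ^ 2 = ‖s - z‖ ^ 2 + 4 * a * (z.re - 1 / 2) := by
      rw [e1, e2]; ring
    have h7 : 4 * a * b ≤ 4 * a * (z.re - 1 / 2) := by
      have : 0 ≤ 4 * a := by linarith
      exact mul_le_mul_of_nonneg_left (by linarith) this
    rw [h6]
    linarith
  have h4 := Real.log_le_log (by positivity) h3
  rw [Real.log_pow] at h4
  push_cast at h4
  linarith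

lemma gain_many {a b R t : ℝ} (ha : 1 ≤ a) (hb : 0 < b) (m : Multiset ℂ)
    (hm : ∀ z ∈ m, 1 / 2 + b ≤ z.re ∧ z.re < 1 ∧ |z.im - t| ≤ R) :
    (Multiset.card m : ℝ) * ((1 / 2) * Real.log (1 + 4 * a * b / (a ^ 2 + R ^ 2))) ≤
      gn m (1 / 2 + a + t * Complex.I) := by
  unfold gn
  induction m using Multiset.induction with
  | empty => simp
  | cons z m ih =>
    obtain ⟨h1, h2, h3⟩ := hm z (Multiset.mem_cons_self z m)
    have h4 := gain_one ha hb h1 h2 h3
    have h5 := ih fun w hw => hm w (Multiset.mem_cons_of_mem hw)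
    rw [Multiset.map_cons, Multiset.sum_cons, Multiset.card_cons]
    push_cast
    linarith

/-- **Poisson-Jensen with zeros for zeta.** -/
theorem zpj : ∃ D : ℝ, 0 ≤ D ∧ ∀ a : ℝ, 1 ≤ a → ∀ t : ℝ, ∀ m : Multiset ℂ,
    (∀ z ∈ m, 1 / 2 < z.re ∧ z ≠ 1 ∧ (m.count z : ℕ∞) ≤ analyticOrderAt riemannZeta z) →
    ∀ g : ℝ, 0 ≤ g → g ≤ gn m (1 / 2 + a + t * Complex.I) →
    (∫⁻ θ, nl (Z (t + a * ct θ)) ∂cm) + ENNReal.ofReal (2 * π * g) ≤
      (∫⁻ θ, pl (Z (t + a * ct θ)) ∂cm) + ENNReal.ofReal (2 * π * D) := by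
  obtain ⟨D, hD, hDW⟩ := W_lower
  refine ⟨D, hD, fun a ha t m hm g hg hgn => ?_⟩
  have h := pjz (F := W) (A := Real.log 6) (B := 2) (fun s hs => W_analyticAt hs) (by norm_num)
    (fun s hs => W_growth s hs) (lt_of_lt_of_le one_pos ha) t (m := m)
    (fun z hz => ⟨(hm z hz).1, (hm z hz).2.2.trans (W_order (hm z hz).2.1 (hm z hz).1.le)⟩)
    hg hgn hD (hDW _ (by
      have : (1 / 2 + (a : ℂ) + t * Complex.I).re = 1 / 2 + a := by simp
      rw [this]; linarith))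
  simp only [W_line] at h
  exact h

/-- crude bound on the critical line -/
lemma pl_Z_le (x : ℝ) : pl (Z x) ≤ ENNReal.ofReal (Real.log 6 + 2 * Real.log 2 + 2 * Real.log (1 + |x|)) := by
  unfold pl
  refine ENNReal.ofReal_le_ofReal ?_
  rw [← W_line x]
  refine (W_growth _ (by simp)).trans ?_
  have h1 : ‖(1 / 2 + (x : ℂ) * Complex.I)‖ + 1 ≤ 2 * (1 + |x|) := by
    have : ‖(1 / 2 + (x : ℂ) * Complex.I)‖ ≤ 1 / 2 + |x| := by
      refine (norm_add_le _ _).trans ?_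
      rw [norm_mul, Complex.norm_I, mul_one, Complex.norm_real, Real.norm_eq_abs]
      simp
    have := abs_nonneg x
    linarith
  have h2 := Real.log_le_log (by positivity) h1
  rw [Real.log_mul (by norm_num) (by positivity)] at h2
  linarith

end Pool.Agent.V7H83.LG
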