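import Pool.Agent.V7H83.LG.A3
import Pool.Agent.H983R4.LH.P5

/-!
Few zeros near a point imply a small value of zeta there.
-/

set_option autoImplicit false
open MeasureTheory Filter Topology Set Real
open scoped ENNReal ComplexConjugate

namespace Pool.Agent.V7H83.LG

open Pool.Agent.H983R4.LH

/-- a bound at the points to the right of the line, off a thin neighbourhood, gives a bound on it -/
lemma circ : ∃ K : ℝ, 0 < K ∧ ∀ T r d V : ℝ, 2 ≤ T → 0 < r → r ≤ 1 / 2 → 0 < d → d < 1 → 0 ≤ V →
    (∀ θ : ℝ, d ≤ |Real.cos θ| →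
      log⁺ ‖riemannZeta (1 / 2 + ((r * |Real.cos θ| : ℝ) : ℂ) +
        ((T + r * Real.sin θ : ℝ) : ℂ) * Complex.I)‖ ≤ V) →
    log⁺ (Z T) ≤ K + r * Real.log (T + 1) + V + MM T * (C1 / (2 * π * Real.log (1 / d))) := by
  obtain ⟨K, hK, hfe⟩ := zeta_left
  have hpi := Real.pi_pos
  have hl3 : 0 < Real.log 3 := Real.log_pos (by norm_num)
  refine ⟨K + Real.log 3, by positivity, ?_⟩
  intro T r d V hT hr0 hr hd0 hd1 hV0 hV
  have hM := MM_nonneg (show 0 ≤ T by linarith)
  have hD : 0 < Real.log (1 / d) := Real.log_pos (by rw [lt_div_iff₀ hd0]; linarith)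
  have hLT : 0 ≤ Real.log T := Real.log_nonneg (by linarith)
  have hLT1 : 0 ≤ Real.log (T + 1) := Real.log_nonneg (by linarith)
  -- analyticity
  have han : AnalyticOnNhd ℂ riemannZeta (Metric.closedBall (1 / 2 + T * Complex.I) r) := by
    have hd : DifferentiableOn ℂ riemannZeta {1}ᶜ := fun s hs =>
      (differentiableAt_riemannZeta hs).differentiableWithinAt
    have ha := hd.analyticOnNhd isOpen_compl_singleton
    refine ha.mono fun s hs => ?_
    rintro (rfl : s = 1)
    rw [Metric.mem_closedBall, dist_eq_norm] at hs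
    have h2 := Complex.abs_im_le_norm (1 - (1 / 2 + T * Complex.I))
    have h3 : (1 - (1 / 2 + (T : ℂ) * Complex.I)).im = -T := by simp
    rw [h3, abs_neg, abs_of_pos (by linarith)] at h2
    linarith
  have hsub := posLog_submean hr0 han
  rw [circleAverage_def, smul_eq_mul, ← div_eq_inv_mul, le_div_iff₀ (by positivity),
    intervalIntegral.integral_of_le (by positivity)] at hsub
  set B : ℝ := K + Real.log 3 + r * Real.log (T + 1) + V with hB
  have hpt : ∀ θ : ℝ, Real.cos θ ≠ 0 →
      log⁺ ‖riemannZeta (circleMap (1 / 2 + T * Complex.I) r θ)‖ ≤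
      B + MM T / Real.log (1 / d) * lc θ := by
    intro θ hcz
    set σ : ℝ := r * |Real.cos θ| with hσ
    set t : ℝ := T + r * Real.sin θ with ht
    have hσ0 : 0 ≤ σ := by positivity
    have hcos := Real.abs_cos_le_one θ
    have hσr : σ ≤ r := by
      rw [hσ]; nlinarith
    have hsin := Real.abs_sin_le_one θ
    have htT : |t - T| ≤ r := by
      rw [ht, add_sub_cancel_left, abs_mul, abs_of_pos hr0]
      nlinarith
    have htT' := abs_le.1 htT
    have ht1 : 1 ≤ t := by linarith [htT'.1]
    -- the right point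
    set s : ℂ := 1 / 2 + σ + t * Complex.I with hs
    have hstep : log⁺ ‖riemannZeta (circleMap (1 / 2 + T * Complex.I) r θ)‖ ≤
        K + r * Real.log (T + 1) + log⁺ ‖riemannZeta s‖ := by
      have hcm : circleMap (1 / 2 + T * Complex.I) r θ =
          1 / 2 + ((r * Real.cos θ : ℝ) : ℂ) + t * Complex.I := by
        rw [circleMap, Complex.exp_mul_I, ht]
        push_cast
        ring
      have hlog : σ * Real.log t ≤ r * Real.log (T + 1) := by
        refine mul_le_mul hσr (Real.log_le_log (by linarith) (by linarith [htT'.2]))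
          (Real.log_nonneg ht1) hr0.le
      rcases le_total 0 (Real.cos θ) with hc | hc
      · have : circleMap (1 / 2 + T * Complex.I) r θ = s := by
          rw [hcm, hs, hσ, abs_of_nonneg hc]
        rw [this]
        have : 0 ≤ r * Real.log (T + 1) := by positivity
        linarith
      · have : circleMap (1 / 2 + T * Complex.I) r θ = 1 / 2 - σ + t * Complex.I := by
          rw [hcm, hσ, abs_of_nonpos hc]
          push_cast
          ring
        rw [this]
        have := hfe σ t hσ0 (by linarith) ht1
        linarith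
    have hsre : s.re = 1 / 2 + σ := by simp [hs]
    have hsim : s.im = t := by simp [hs]
    have hs1 : 1 ≤ ‖s - 1‖ := by
      have h2 := Complex.abs_im_le_norm (s - 1)
      rw [Complex.sub_im, Complex.one_im, sub_zero, hsim, abs_of_pos (by linarith)] at h2
      linarith
    have hG := posLog_zeta_le (s := s) (by rw [hsre]; linarith) hs1
    have hlc := lc_nonneg θ
    have hpos : 0 < |Real.cos θ| := abs_pos.2 hcz
    by_cases hcd : |Real.cos θ| < d
    · -- near the line
      have h2 : Real.log (1 / d) ≤ lc θ := by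
        unfold lc
        rw [← Real.log_abs (Real.cos θ), one_div, Real.log_inv]
        have := Real.log_le_log hpos hcd.le
        linarith
      have h3 : MM T ≤ MM T / Real.log (1 / d) * lc θ := by
        rw [div_mul_eq_mul_div, le_div_iff₀ hD]
        exact mul_le_mul_of_nonneg_left h2 hM
      have h4 : log⁺ ‖G s‖ ≤ MM T := by
        refine (posLog_G_le (s := s) (by rw [hsre]; linarith)).trans ?_
        unfold MM
        have h5 : ‖s‖ ≤ 1 / 2 + σ + t := by
          have h6 : ‖s‖ ≤ |s.re| + |s.im| := Complex.norm_le_abs_re_add_abs_im s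
          rw [hsre, hsim, abs_of_nonneg (by linarith), abs_of_pos (by linarith)] at h6
          exact h6
        have h7 : Real.log (‖s‖ + 1) ≤ Real.log (T + 3) :=
          Real.log_le_log (by positivity) (by linarith [htT'.2])
        linarith
      rw [hB]
      linarith
    · push Not at hcd
      have h2 : log⁺ ‖riemannZeta s‖ ≤ V := hV θ hcd
      have h4 : 0 ≤ MM T / Real.log (1 / d) * lc θ := by positivity
      rw [hB]
      linarith
  have hae : ∀ᵐ θ : ℝ ∂(volume.restrict (Set.Ioc 0 (2 * π))), Real.cos θ ≠ 0 := by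
    refine ae_restrict_of_ae ?_
    have hcount : {θ : ℝ | Real.cos θ = 0}.Countable := by
      have : {θ : ℝ | Real.cos θ = 0} ⊆ Set.range (fun k : ℤ => (2 * (k : ℝ) + 1) * π / 2) := by
        intro θ hθ
        obtain ⟨k, hk⟩ := Real.cos_eq_zero_iff.1 hθ
        exact ⟨k, hk.symm⟩
      exact (Set.countable_range _).mono this
    have h2 := hcount.measure_zero volume
    rw [ae_iff]
    simpa using h2
  have hint : Integrable (fun θ : ℝ => B + MM T / Real.log (1 / d) * lc θ)
      (volume.restrict (Set.Ioc 0 (2 * π))) :=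
    (integrable_const _).add (lc_integrable.const_mul _)
  have hle : ∫ θ in Set.Ioc 0 (2 * π), log⁺ ‖riemannZeta (circleMap (1 / 2 + T * Complex.I) r θ)‖ ≤
      ∫ θ in Set.Ioc 0 (2 * π), (B + MM T / Real.log (1 / d) * lc θ) := by
    refine integral_mono_of_nonneg (Eventually.of_forall fun θ => posLog_nonneg) hint ?_
    filter_upwards [hae] with θ hθ
    exact hpt θ hθ
  have e1 : ∫ θ in Set.Ioc 0 (2 * π), (B + MM T / Real.log (1 / d) * lc θ) =
      2 * π * B + MM T / Real.log (1 / d) * C1 := by
    have e4 := integral_add (μ := volume.restrict (Set.Ioc 0 (2 * π))) (f := fun _ : ℝ => B)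
      (g := fun θ => MM T / Real.log (1 / d) * lc θ) (integrable_const _) (lc_integrable.const_mul _)
    have e6 : (volume.restrict (Set.Ioc 0 (2 * π))).real Set.univ = 2 * π := by
      simp [Measure.real, Real.volume_Ioc, hpi.le]
    have e7 : ∫ θ in Set.Ioc 0 (2 * π), MM T / Real.log (1 / d) * lc θ =
        MM T / Real.log (1 / d) * C1 := by
      unfold C1
      exact integral_const_mul _ lc
    have e8 : ∫ _ in Set.Ioc 0 (2 * π), B = 2 * π * B := by
      rw [integral_const, e6, smul_eq_mul]
    rw [e4, e7, e8]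
  rw [e1] at hle
  have e2 : (K + Real.log 3 + r * Real.log (T + 1) + V +
      MM T * (C1 / (2 * π * Real.log (1 / d)))) * (2 * π) = 2 * π * B + MM T / Real.log (1 / d) * C1 := by
    rw [hB]
    have := hD.ne'
    field_simp
  have h9 : log⁺ ‖riemannZeta (1 / 2 + T * Complex.I)‖ * (2 * π) ≤
    (K + Real.log 3 + r * Real.log (T + 1) + V +
      MM T * (C1 / (2 * π * Real.log (1 / d)))) * (2 * π) := by
    rw [e2]
    exact hsub.trans hle
  exact le_of_mul_le_mul_right h9 (by positivity)

/-- the multiset of zeros attached to a finite set -/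
lemma card_sum (S : Finset ℂ) (f : ℂ → ℕ) :
    (Multiset.card (∑ z ∈ S, Multiset.replicate (f z) z)) = ∑ z ∈ S, f z := by
  classical
  induction S using Finset.induction_on with
  | empty => simp
  | insert a s ha ih => rw [Finset.sum_insert ha, Finset.sum_insert ha, Multiset.card_add, ih,
      Multiset.card_replicate]

lemma count_sum (S : Finset ℂ) (f : ℂ → ℕ) (z : ℂ) :
    Multiset.count z (∑ w ∈ S, Multiset.replicate (f w) w) = if z ∈ S then f z else 0 := by
  classical
  rw [Multiset.count_sum']
  simp only [Multiset.count_replicate]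
  rw [Finset.sum_ite_eq' S z]

lemma mem_sum {S : Finset ℂ} {f : ℂ → ℕ} {z : ℂ}
    (h : z ∈ ∑ w ∈ S, Multiset.replicate (f w) w) : z ∈ S := by
  classical
  have h1 := Multiset.count_pos.2 h
  rw [count_sum] at h1
  by_contra hcon
  rw [if_neg hcon] at h1
  omega

/-- **Few zeros near a point imply a small value there.** -/
theorem fewZeros {ε : ℝ} (hε : 0 < ε) : ∃ η b T₀ : ℝ, 0 < η ∧ 0 < b ∧ 8 ≤ T₀ ∧ ∀ T : ℝ, T₀ ≤ T →
    (∀ m : Multiset ℂ, ZM b T m → (Multiset.card m : ℝ) ≤ η * Real.log T) →
    log⁺ (Z T) ≤ ε * Real.log T := by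
  obtain ⟨K, hK, hcirc⟩ := circ
  have hpi := Real.pi_pos
  have hC1 := C1_nonneg
  set Y : ℝ := 12 * C1 / (2 * π * ε) with hY
  have hY0 : 0 ≤ Y := by positivity
  set r : ℝ := min (1 / 4) (ε / 8) with hr
  have hr0 : 0 < r := lt_min (by norm_num) (by positivity)
  have hr1 : r ≤ 1 / 4 := min_le_left _ _
  have hr2 : r ≤ ε / 8 := min_le_right _ _
  set d : ℝ := Real.exp (-(Y + 1)) with hd
  have hd0 : 0 < d := Real.exp_pos _
  have hd1 : d < 1 := by
    rw [hd, Real.exp_lt_one_iff]
    linarith
  have hlogd : Real.log (1 / d) = Y + 1 := by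
    rw [one_div, Real.log_inv, hd, Real.log_exp]; ring
  set δ : ℝ := r * d / 4 with hδ
  have hδ0 : 0 < δ := by positivity
  have hrd : r * d ≤ 1 / 4 := by nlinarith
  obtain ⟨η', hη', T1, hb⟩ := DH31.backlund_zeta hδ0 (by rw [hδ]; linarith)
    (show 0 < ε / 8 by positivity)
  refine ⟨η', r * d / 4, max (max 8 T1) (Real.exp (4 * K / ε)), hη', by positivity,
    (le_max_left _ _).trans (le_max_left _ _), ?_⟩
  intro T hT hm
  have hT8 : 8 ≤ T := ((le_max_left _ _).trans (le_max_left _ _)).trans hT
  have hT1 : T1 ≤ T := ((le_max_right _ _).trans (le_max_left _ _)).trans hT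
  have hT0 : 0 < T := by linarith
  have hL : 4 * K / ε ≤ Real.log T := by
    rw [Real.le_log_iff_exp_le hT0]
    exact (le_max_right _ _).trans hT
  rw [div_le_iff₀ hε] at hL
  have hLT : 0 ≤ Real.log T := Real.log_nonneg (by linarith)
  have hMM := num1 hT8
  have hLT1 := num2 hT8
  have hLT1' : Real.log T ≤ Real.log (T + 1) := Real.log_le_log hT0 (by linarith)
  have hLT2 : 0 ≤ Real.log (T + 1) := hLT.trans hLT1'
  have h := hcirc T r d (ε / 8 * Real.log (T + 1)) (by linarith) hr0 (by linarith) hd0 hd1
    (by positivity) (by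
      intro θ hθ
      set σ : ℝ := r * |Real.cos θ| with hσ
      set t : ℝ := T + r * Real.sin θ with ht
      have hσd : r * d ≤ σ := mul_le_mul_of_nonneg_left hθ hr0.le
      have hsin := Real.abs_sin_le_one θ
      have htT : |t - T| ≤ r := by
        rw [ht, add_sub_cancel_left, abs_mul, abs_of_pos hr0]
        nlinarith
      have htT' := abs_le.1 htT
      have hσ1 : σ ≤ r := by
        rw [hσ]
        nlinarith [Real.abs_cos_le_one θ]
      have hb2 := hb (T + 1) (by linarith) t (by linarith) (by linarith)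
        (1 / 2 + δ + r * d / 2) (by have : 0 < r * d := by positivity
                                    linarith) (by rw [hδ]; linarith) (by
        intro S hS
        set m : Multiset ℂ := ∑ z ∈ S, Multiset.replicate (H370.mult riemannZeta z) z with hmdef
        have hcard : (Multiset.card m : ℝ) = ∑ z ∈ S, (H370.mult riemannZeta z : ℝ) := by
          rw [hmdef, card_sum]
          push_cast
          rfl
        rw [← hcard]
        refine (hm m ?_).trans (mul_le_mul_of_nonneg_left hLT1' hη'.le)
        intro z hz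
        have hzS : z ∈ S := mem_sum hz
        have h1 := DH31.ball_re_im (hS z hzS).1
        refine ⟨?_, ?_, ?_⟩
        · have := h1.1
          rw [hδ] at this
          linarith
        · have h2 := h1.2
          calc |z.im - T| = |(z.im - t) + (t - T)| := by ring_nf
            _ ≤ |z.im - t| + |t - T| := abs_add_le _ _
            _ ≤ 1 := by
                rw [hδ] at h2
                linarith
        · rw [hmdef, count_sum, if_pos hzS]
          unfold H370.mult analyticOrderNatAt
          exact ENat.natCast_toNat_le_self _)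
      have hz : (1 / 2 + (σ : ℂ) + (t : ℂ) * Complex.I) ∈
          Metric.closedBall (⟨1 + δ, t⟩ : ℂ) (1 + δ - (1 / 2 + δ + r * d / 2) + δ) := by
        rw [Metric.mem_closedBall, dist_eq_norm]
        have e : (1 / 2 + (σ : ℂ) + (t : ℂ) * Complex.I) - (⟨1 + δ, t⟩ : ℂ) =
            ((-(1 / 2 + δ - σ) : ℝ) : ℂ) := by
          apply Complex.ext
          · simp; ring
          · simp
        rw [e, Complex.norm_real, Real.norm_eq_abs, abs_neg, abs_of_pos (by linarith)]
        rw [hδ]
        linarith
      have h3 := hb2 _ hz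
      have h4 := posLog_le_posLog (norm_nonneg _) h3
      have h5 : log⁺ ((T + 1) ^ (ε / 8)) = ε / 8 * Real.log (T + 1) := by
        rw [posLog_eq_log, Real.log_rpow (by linarith)]
        rw [abs_of_nonneg (by positivity)]
        exact Real.one_le_rpow (by linarith) (by positivity)
      linarith)
  refine h.trans ?_
  have h1 : r * Real.log (T + 1) ≤ ε / 8 * (2 * Real.log T) :=
    mul_le_mul hr2 hLT1 (by linarith) (by positivity)
  have h2 : ε / 8 * Real.log (T + 1) ≤ ε / 8 * (2 * Real.log T) :=
    mul_le_mul_of_nonneg_left hLT1 (by positivity)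
  have h3 : C1 / (2 * π * Real.log (1 / d)) ≤ ε / 12 := by
    rw [hlogd, div_le_iff₀ (by positivity)]
    have : C1 = ε / 12 * (2 * π * Y) := by
      rw [hY]
      field_simp
    have h5 : 0 ≤ ε / 12 * (2 * π) := by positivity
    nlinarith
  have h4 : MM T * (C1 / (2 * π * Real.log (1 / d))) ≤ 3 * Real.log T * (ε / 12) := by
    refine mul_le_mul hMM h3 ?_ (by positivity)
    rw [hlogd]
    positivity
  linarith

end Pool.Agent.V7H83.LG
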