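import Pool.Agent.V7H83.LG.A4

/-!
Averages of `log |ζ|` over dilates and translates control the zeros, hence the size of zeta.
-/

set_option autoImplicit false
open MeasureTheory Filter Topology Set Real
open scoped ENNReal ComplexConjugate

namespace Pool.Agent.V7H83.LG

open Pool.Agent.H983R4.LH hiding ct_measurable

lemma Z_measurable : Measurable Z := (continuous_norm.comp zeta_line_cont).measurable

/-- the positive part of the average of `log |ζ|` over the translates and dilates in `μ` -/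
noncomputable def PP (μ : Measure (ℝ × ℝ)) (x : ℝ) : ℝ≥0∞ := ∫⁻ p, pl (Z (p.1 * x + p.2)) ∂μ

/-- the negative part -/
noncomputable def NN (μ : Measure (ℝ × ℝ)) (x : ℝ) : ℝ≥0∞ := ∫⁻ p, nl (Z (p.1 * x + p.2)) ∂μ

variable {μ : Measure (ℝ × ℝ)} [IsProbabilityMeasure μ] {a b l : ℝ}

lemma meas_arg (T c : ℝ) : Measurable fun q : (ℝ × ℝ) × ℝ => Z (q.1.1 * (T + c * ct q.2) + q.1.2) := by
  refine Z_measurable.comp ?_
  have h1 : Measurable fun q : (ℝ × ℝ) × ℝ => ct q.2 := ct_measurable.comp measurable_snd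
  fun_prop

lemma ae_cm {p : ℝ → Prop} (h : ∀ θ, 0 < θ → θ < 2 * π → p θ) : ∀ᵐ θ ∂cm, p θ := by
  have := Pool.Agent.H983R4.LH.ae_mem
  unfold cm
  filter_upwards [this] with θ hθ
  exact h θ hθ.1 hθ.2

/-- almost every `x` gives almost every `θ` -/
lemma ae_pull {c : ℝ} (hc : 0 < c) (T : ℝ) {p : ℝ → Prop} (h : ∀ᵐ x, p x) :
    ∀ᵐ θ ∂cm, p (T + c * ct θ) := by
  have h1 := vol_pre hc T {x | ¬ p x}
  rw [ae_iff] at h
  rw [h, mul_zero] at h1
  have h2 := le_antisymm h1 zero_le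
  have h3 : ∀ᵐ θ : ℝ ∂volume, ¬ ((0 < θ ∧ θ < 2 * π) ∧ T + c * ct θ ∈ {x | ¬ p x}) := by
    rw [ae_iff]
    simpa [and_assoc] using h2
  have h4 : ∀ᵐ θ ∂cm, 0 < θ ∧ θ < 2 * π := ae_cm fun θ h0 h1 => ⟨h0, h1⟩
  have h5 : ∀ᵐ θ ∂cm, ¬ ((0 < θ ∧ θ < 2 * π) ∧ T + c * ct θ ∈ {x | ¬ p x}) := by
    unfold cm
    exact ae_restrict_of_ae h3
  filter_upwards [h4, h5] with θ h6 h7
  by_contra hcon
  exact h7 ⟨h6, hcon⟩

lemma lintegral_ps {u v : ℝ} (hu : 0 ≤ u) (hv : 0 ≤ v) :
    ∫⁻ θ, ENNReal.ofReal (u + v * ps θ) ∂cm = ENNReal.ofReal (2 * π * u + v * C0) := by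
  have hpi := Real.pi_pos
  have h1 : Integrable (fun θ => u + v * ps θ) cm := by
    unfold cm
    exact (integrable_const _).add (ps_integrable.const_mul _)
  rw [← ofReal_integral_eq_lintegral_ofReal h1 (Eventually.of_forall fun θ => by
    have := ps_nonneg θ
    positivity)]
  congr 1
  unfold cm
  have e4 := integral_add (μ := volume.restrict (Set.Ioc 0 (2 * π))) (f := fun _ : ℝ => u)
      (g := fun θ => v * ps θ) (integrable_const _) (ps_integrable.const_mul _)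
  have e6 : (volume.restrict (Set.Ioc 0 (2 * π))).real Set.univ = 2 * π := by
    simp [Measure.real, Real.volume_Ioc, hpi.le]
  have e7 : ∫ θ in Set.Ioc 0 (2 * π), v * ps θ = v * C0 := by
    unfold C0
    exact integral_const_mul _ ps
  have e8 : ∫ _ in Set.Ioc 0 (2 * π), u = 2 * π * u := by
    rw [integral_const, e6, smul_eq_mul]
  rw [e4, e7, e8]

/-- crude bound for the positive part at all scales -/
lemma crudeP (ha : 0 < a) (hab : a ≤ b) (hμ : ∀ᵐ p ∂μ, a ≤ p.1 ∧ p.1 ≤ b ∧ |p.2| ≤ b) :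
    ∃ C : ℝ, 0 ≤ C ∧ ∀ T : ℝ, 1 ≤ T → ∀ θ : ℝ,
      PP μ (T + 1 / a * ct θ) ≤ ENNReal.ofReal (C + 2 * Real.log T + 2 * ps θ) := by
  have hb : 0 < b := lt_of_lt_of_le ha hab
  have hl6 : 0 ≤ Real.log 6 := Real.log_nonneg (by norm_num)
  have hl2 : 0 ≤ Real.log 2 := Real.log_nonneg (by norm_num)
  have hc1 : 1 ≤ 1 + 2 * b + b / a := by
    have : 0 < b / a := by positivity
    linarith
  refine ⟨Real.log 6 + 2 * Real.log 2 + 2 * Real.log (1 + 2 * b + b / a), by
    have := Real.log_nonneg hc1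
    positivity, fun T hT θ => ?_⟩
  have h1 : ∀ᵐ p ∂μ, pl (Z (p.1 * (T + 1 / a * ct θ) + p.2)) ≤ ENNReal.ofReal
      (Real.log 6 + 2 * Real.log 2 + 2 * Real.log (1 + 2 * b + b / a) + 2 * Real.log T + 2 * ps θ) := by
    filter_upwards [hμ] with p hp
    refine (pl_Z_le _).trans (ENNReal.ofReal_le_ofReal ?_)
    have hct := abs_nonneg (ct θ)
    have h2 : 1 + |p.1 * (T + 1 / a * ct θ) + p.2| ≤ ((1 + 2 * b + b / a) * T) * (1 + |ct θ|) := by
      have h3 : |p.1 * (T + 1 / a * ct θ) + p.2| ≤ b * (T + 1 / a * |ct θ|) + b := by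
        refine (abs_add_le _ _).trans (add_le_add ?_ hp.2.2)
        rw [abs_mul, abs_of_pos (lt_of_lt_of_le ha hp.1)]
        have h4 : |T + 1 / a * ct θ| ≤ T + 1 / a * |ct θ| := by
          refine (abs_add_le _ _).trans ?_
          rw [abs_mul, abs_of_pos (show 0 < 1 / a by positivity), abs_of_pos (by linarith : 0 < T)]
        exact mul_le_mul hp.2.1 h4 (abs_nonneg _) hb.le
      have h5 : b * (T + 1 / a * |ct θ|) + b = b * T + b / a * |ct θ| + b := by ring
      have hba : 0 < b / a := by positivity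
      have h6 : 1 ≤ T * (1 + |ct θ|) := by nlinarith
      have h7 : b * T ≤ b * (T * (1 + |ct θ|)) := by
        refine mul_le_mul_of_nonneg_left ?_ hb.le
        nlinarith
      have h8 : b ≤ b * (T * (1 + |ct θ|)) := by nlinarith
      have h9 : b / a * |ct θ| ≤ b / a * (T * (1 + |ct θ|)) := by
        refine mul_le_mul_of_nonneg_left ?_ hba.le
        nlinarith
      nlinarith
    have h3 := Real.log_le_log (by positivity) h2
    rw [Real.log_mul (by positivity) (by positivity), Real.log_mul (by positivity) (by positivity)] at h3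
    unfold ps
    linarith
  have h2 := lintegral_mono_ae h1
  rw [lintegral_const, measure_univ, mul_one] at h2
  exact h2

/-- **Poisson-Jensen averaged over `μ`.** -/
theorem avg (ha : 0 < a) (hμ : ∀ᵐ p ∂μ, a ≤ p.1 ∧ p.1 ≤ b ∧ |p.2| ≤ b) (hal : a ≤ l) :
    ∃ D : ℝ, 0 ≤ D ∧ ∀ β R T t : ℝ, 0 < β → 0 ≤ R → 2 ≤ t → |t - l * T| ≤ R → ∀ m : Multiset ℂ,
      ZM β t m →
      (∫⁻ θ, NN μ (T + 1 / a * ct θ) ∂cm) + ENNReal.ofReal (2 * π * (Multiset.card m *
        ((1 / 2) * Real.log (1 + 4 * (l / a) * β / ((l / a) ^ 2 + (1 + R + b) ^ 2))))) *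
          μ {p | p.1 = l} ≤
      (∫⁻ θ, PP μ (T + 1 / a * ct θ) ∂cm) + ENNReal.ofReal (2 * π * D) := by
  obtain ⟨D, hD, hz⟩ := zpj
  refine ⟨D, hD, fun β R T t hβ hR ht htT m hm => ?_⟩
  set G : ℝ := 2 * π * (Multiset.card m *
        ((1 / 2) * Real.log (1 + 4 * (l / a) * β / ((l / a) ^ 2 + (1 + R + b) ^ 2)))) with hG
  have hla : 1 ≤ l / a := by rwa [le_div_iff₀ ha, one_mul]
  have hmeas := meas_arg T (1 / a)
  have hS : MeasurableSet {p : ℝ × ℝ | p.1 = l} := measurable_fst (measurableSet_singleton l)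
  have h1 : ∀ᵐ p ∂μ, (∫⁻ θ, nl (Z (p.1 * (T + 1 / a * ct θ) + p.2)) ∂cm) +
      Set.indicator {p : ℝ × ℝ | p.1 = l} (fun _ => ENNReal.ofReal G) p ≤
      (∫⁻ θ, pl (Z (p.1 * (T + 1 / a * ct θ) + p.2)) ∂cm) + ENNReal.ofReal (2 * π * D) := by
    filter_upwards [hμ] with p hp
    have e : ∀ θ, p.1 * (T + 1 / a * ct θ) + p.2 = (p.1 * T + p.2) + (p.1 / a) * ct θ := by
      intro θ; ring
    simp only [e]
    have hpa : 1 ≤ p.1 / a := by rw [le_div_iff₀ ha, one_mul]; exact hp.1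
    by_cases hpl : p.1 = l
    · rw [indicator_of_mem (show p ∈ {p : ℝ × ℝ | p.1 = l} from hpl)]
      have hne : ∀ z ∈ m, z ≠ 1 := by
        intro z hz h
        have h2 := (hm z hz).2.1
        rw [h, Complex.one_im, zero_sub, abs_neg, abs_of_pos (by linarith)] at h2
        linarith
      have hg0 : 0 ≤ (1 / 2) * Real.log (1 + 4 * (l / a) * β / ((l / a) ^ 2 + (1 + R + b) ^ 2)) := by
        have : 0 ≤ 4 * (l / a) * β / ((l / a) ^ 2 + (1 + R + b) ^ 2) := by positivity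
        have := Real.log_nonneg (show 1 ≤ 1 + 4 * (l / a) * β / ((l / a) ^ 2 + (1 + R + b) ^ 2) by linarith)
        positivity
      refine hz (p.1 / a) hpa (p.1 * T + p.2) m (fun z hzm => ?_) _ (by positivity) ?_
      · have h2 := hm z hzm
        exact ⟨by linarith [h2.1], hne z hzm, h2.2.2⟩
      · rw [hpl] at hpa ⊢
        push_cast
        have h3 := gain_many (a := l / a) (b := β) (R := 1 + R + b) (t := l * T + p.2) hla hβ m
          (fun z hzm => by
            have h2 := hm z hzm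
            refine ⟨h2.1, re_lt_one_of_order (Multiset.count_pos.2 hzm) h2.2.2 (hne z hzm), ?_⟩
            calc |z.im - (l * T + p.2)| = |(z.im - t) + (t - l * T) + (-p.2)| := by ring_nf
              _ ≤ |(z.im - t) + (t - l * T)| + |-p.2| := abs_add_le _ _
              _ ≤ (|z.im - t| + |t - l * T|) + |-p.2| := by gcongr; exact abs_add_le _ _
              _ ≤ 1 + R + b := by rw [abs_neg]; linarith [h2.2.1, hp.2.2])
        push_cast at h3
        exact h3
    · rw [indicator_of_notMem (show p ∉ {p : ℝ × ℝ | p.1 = l} from hpl), add_zero]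
      have h3 := hz (p.1 / a) hpa (p.1 * T + p.2) 0 (fun z hzm => absurd hzm (Multiset.notMem_zero z))
        0 le_rfl (by simp [gn])
      simpa using h3
  have h2 := lintegral_mono_ae h1
  have hm1 : Measurable fun p : ℝ × ℝ => ∫⁻ θ, nl (Z (p.1 * (T + 1 / a * ct θ) + p.2)) ∂cm :=
    (nl_measurable.comp hmeas).lintegral_prod_right'
  have hm2 : Measurable fun p : ℝ × ℝ => ∫⁻ θ, pl (Z (p.1 * (T + 1 / a * ct θ) + p.2)) ∂cm :=
    (pl_measurable.comp hmeas).lintegral_prod_right'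
  rw [lintegral_add_left hm1, lintegral_add_left hm2, lintegral_const, measure_univ, mul_one,
    lintegral_indicator hS, setLIntegral_const] at h2
  have s1 : ∫⁻ p, ∫⁻ θ, nl (Z (p.1 * (T + 1 / a * ct θ) + p.2)) ∂cm ∂μ =
      ∫⁻ θ, NN μ (T + 1 / a * ct θ) ∂cm :=
    lintegral_lintegral_swap (nl_measurable.comp hmeas).aemeasurable
  have s2 : ∫⁻ p, ∫⁻ θ, pl (Z (p.1 * (T + 1 / a * ct θ) + p.2)) ∂cm ∂μ =
      ∫⁻ θ, PP μ (T + 1 / a * ct θ) ∂cm :=
    lintegral_lintegral_swap (pl_measurable.comp hmeas).aemeasurable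
  rw [s1, s2] at h2
  exact h2

end Pool.Agent.V7H83.LG
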