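import Pool.Agent.V7H83.LG.A5

/-!
The geometric mean criterion, local form.
-/

set_option autoImplicit false
open MeasureTheory Filter Topology Set Real
open scoped ENNReal ComplexConjugate

namespace Pool.Agent.V7H83.LG

open Pool.Agent.H983R4.LH hiding ct_measurable

variable {μ : Measure (ℝ × ℝ)} [IsProbabilityMeasure μ] {a b l : ℝ}

/-- **the geometric mean criterion, local form** -/
theorem geo_local (ha : 0 < a) (hμ : ∀ᵐ p ∂μ, a ≤ p.1 ∧ p.1 ≤ b ∧ |p.2| ≤ b)
    (hl : μ {p | p.1 = l} ≠ 0) {ε : ℝ} (hε : 0 < ε) {R : ℝ} (hR : 0 ≤ R) :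
    ∃ ε' H T₀ : ℝ, 0 < ε' ∧ 0 < H ∧ ∀ T : ℝ, T₀ ≤ T →
      (∀ᵐ x : ℝ, |x - T| ≤ H → PP μ x ≤ NN μ x + ENNReal.ofReal (ε' * Real.log T)) →
      ∀ t : ℝ, |t - l * T| ≤ R → log⁺ (Z t) ≤ ε * Real.log t := by
  have hpi := Real.pi_pos
  have hC0 := C0_nonneg
  -- the atom lies in the range
  have hlab : a ≤ l ∧ l ≤ b ∧ 0 ≤ b := by
    by_contra hcon
    refine hl (le_antisymm ?_ zero_le)
    have h1 : {p : ℝ × ℝ | p.1 = l} ⊆ {p | ¬ (a ≤ p.1 ∧ p.1 ≤ b ∧ |p.2| ≤ b)} := by
      intro p hp h2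
      have hp' : p.1 = l := hp
      exact hcon ⟨by rw [← hp']; exact h2.1, by rw [← hp']; exact h2.2.1,
        (abs_nonneg _).trans h2.2.2⟩
    calc μ {p : ℝ × ℝ | p.1 = l} ≤ μ {p | ¬ (a ≤ p.1 ∧ p.1 ≤ b ∧ |p.2| ≤ b)} := measure_mono h1
      _ = 0 := ae_iff.1 hμ
      _ ≤ 0 := le_rfl
  obtain ⟨hal, hlb, hb0⟩ := hlab
  have hl0 : 0 < l := by linarith
  obtain ⟨η, β, T₁, hη, hβ, hT₁, hfew⟩ := fewZeros hε
  obtain ⟨D, hD, havg⟩ := avg (μ := μ) (b := b) ha hμ hal
  obtain ⟨C, hC, hcr⟩ := crudeP (μ := μ) ha (hal.trans hlb) hμ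
  set c : ℝ := (1 / 2) * Real.log (1 + 4 * (l / a) * β / ((l / a) ^ 2 + (1 + R + b) ^ 2)) with hc
  have hc0 : 0 < c := by
    have h1 : 0 < 4 * (l / a) * β / ((l / a) ^ 2 + (1 + R + b) ^ 2) := by positivity
    have := Real.log_pos (show 1 < 1 + 4 * (l / a) * β / ((l / a) ^ 2 + (1 + R + b) ^ 2) by linarith)
    positivity
  set w : ℝ := (μ {p | p.1 = l}).toReal with hw
  have hwtop : μ {p : ℝ × ℝ | p.1 = l} ≠ ⊤ := measure_ne_top _ _
  have hw0 : 0 < w := ENNReal.toReal_pos hl hwtop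
  have hwe : μ {p : ℝ × ℝ | p.1 = l} = ENNReal.ofReal w := (ENNReal.ofReal_toReal hwtop).symm
  set κ : ℝ := 2 * π * c * w * η with hκ
  have hκ0 : 0 < κ := by positivity
  set Λ : ℝ := 1 + 16 * C0 / κ with hΛ
  have hΛ1 : 1 ≤ Λ := by
    have : 0 ≤ 16 * C0 / κ := by positivity
    linarith
  set H : ℝ := 1 / a * Real.exp Λ with hH
  have hH0 : 0 < H := by positivity
  set ε' : ℝ := κ / (16 * π) with hε'
  have hε'0 : 0 < ε' := by positivity
  set E : ℝ := C * C0 + 2 * C0 + 2 * π * D with hE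
  have hE0 : 0 ≤ E := by positivity
  refine ⟨ε', H, max (max (max 1 (2 * (R + 1) / l)) (2 * T₁ / l))
    (max (Real.exp (4 * E / κ)) (Real.exp (2 * Real.log (2 / l)))), hε'0, hH0, ?_⟩
  intro T hT hyp t ht
  have hT1 : 1 ≤ T := ((le_max_left _ _).trans ((le_max_left _ _).trans (le_max_left _ _))).trans hT
  have hT2 : 2 * (R + 1) / l ≤ T :=
    ((le_max_right _ _).trans ((le_max_left _ _).trans (le_max_left _ _))).trans hT
  have hT3 : 2 * T₁ / l ≤ T := ((le_max_right _ _).trans (le_max_left _ _)).trans hT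
  have hT4 : 4 * E / κ ≤ Real.log T := by
    rw [Real.le_log_iff_exp_le (by linarith)]
    exact ((le_max_left _ _).trans (le_max_right _ _)).trans hT
  have hT5 : 2 * Real.log (2 / l) ≤ Real.log T := by
    rw [Real.le_log_iff_exp_le (by linarith)]
    exact ((le_max_right _ _).trans (le_max_right _ _)).trans hT
  have hT0 : 0 < T := by linarith
  rw [div_le_iff₀ hl0] at hT2 hT3
  rw [div_le_iff₀ hκ0] at hT4
  have hLT : 0 ≤ Real.log T := Real.log_nonneg hT1
  have htl := abs_le.1 ht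
  have ht1 : l * T / 2 ≤ t := by nlinarith [htl.1]
  have htT₁ : T₁ ≤ t := by nlinarith
  have hlogt : Real.log T ≤ 2 * Real.log t := by
    have h1 : Real.log (l * T / 2) ≤ Real.log t := Real.log_le_log (by positivity) ht1
    have h2 : Real.log (l * T / 2) = Real.log T - Real.log (2 / l) := by
      rw [← Real.log_div (by positivity) (by positivity)]
      congr 1
      field_simp
    linarith
  refine hfew t htT₁ fun m hm => ?_
  have h1 := havg β R T t hβ hR (by linarith) ht m hm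
  -- the bound for the positive part
  have h2 : ∀ᵐ θ ∂cm, PP μ (T + 1 / a * ct θ) ≤ NN μ (T + 1 / a * ct θ) +
      ENNReal.ofReal (ε' * Real.log T + ((C + 2 * Real.log T) / Λ + 2) * ps θ) := by
    filter_upwards [ae_pull (c := 1 / a) (by positivity) T hyp] with θ hθ
    have hps := ps_nonneg θ
    by_cases hcase : |T + 1 / a * ct θ - T| ≤ H
    · refine (hθ hcase).trans ?_
      gcongr
      have : 0 ≤ ((C + 2 * Real.log T) / Λ + 2) * ps θ := by positivity
      linarith
    · push Not at hcase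
      refine (hcr T hT1 θ).trans (le_add_left (ENNReal.ofReal_le_ofReal ?_))
      have h3 : Λ ≤ ps θ := by
        unfold ps
        rw [Real.le_log_iff_exp_le (by positivity)]
        rw [add_sub_cancel_left, abs_mul, abs_of_pos (show 0 < 1 / a by positivity), hH] at hcase
        have := lt_of_mul_lt_mul_left hcase (by positivity)
        linarith
      have h4 : C + 2 * Real.log T ≤ (C + 2 * Real.log T) / Λ * ps θ := by
        rw [div_mul_eq_mul_div, le_div_iff₀ (by linarith)]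
        exact mul_le_mul_of_nonneg_left h3 (by positivity)
      have h5 : 0 ≤ ε' * Real.log T := by positivity
      linarith
  have hps1 : Measurable fun θ => ENNReal.ofReal (ε' * Real.log T +
      ((C + 2 * Real.log T) / Λ + 2) * ps θ) := by
    have := ps_measurable
    fun_prop
  have h3 : ∫⁻ θ, PP μ (T + 1 / a * ct θ) ∂cm ≤ (∫⁻ θ, NN μ (T + 1 / a * ct θ) ∂cm) +
      ENNReal.ofReal (2 * π * (ε' * Real.log T) + ((C + 2 * Real.log T) / Λ + 2) * C0) := by
    have h4 := lintegral_mono_ae h2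
    rw [lintegral_add_right _ hps1, lintegral_ps (by positivity) (by positivity)] at h4
    exact h4
  -- finiteness
  have h4 : ∫⁻ θ, PP μ (T + 1 / a * ct θ) ∂cm ≠ ⊤ := by
    have h5 : ∫⁻ θ, PP μ (T + 1 / a * ct θ) ∂cm ≤
        ∫⁻ θ, ENNReal.ofReal (C + 2 * Real.log T + 2 * ps θ) ∂cm :=
      lintegral_mono fun θ => hcr T hT1 θ
    rw [lintegral_ps (by positivity) (by norm_num)] at h5
    exact ne_top_of_le_ne_top ENNReal.ofReal_ne_top h5
  have h5 : ∫⁻ θ, NN μ (T + 1 / a * ct θ) ∂cm ≠ ⊤ := by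
    refine ne_top_of_le_ne_top ?_ ((le_add_right le_rfl).trans h1)
    exact ENNReal.add_ne_top.2 ⟨h4, ENNReal.ofReal_ne_top⟩
  have h6 : ENNReal.ofReal (2 * π * (Multiset.card m * c)) * μ {p | p.1 = l} ≤
      ENNReal.ofReal (2 * π * (ε' * Real.log T) + ((C + 2 * Real.log T) / Λ + 2) * C0) +
        ENNReal.ofReal (2 * π * D) := by
    refine (ENNReal.add_le_add_iff_left h5).1 (h1.trans ?_)
    rw [← add_assoc]
    gcongr
  rw [hwe, ← ENNReal.ofReal_mul (by positivity), ← ENNReal.ofReal_add (by positivity) (by positivity)]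
    at h6
  have h7 := (ENNReal.ofReal_le_ofReal_iff (by positivity)).1 h6
  -- numerics
  have h8 : 2 * π * (ε' * Real.log T) = κ / 8 * Real.log T := by
    rw [hε']; field_simp; ring
  have h9 : 2 * Real.log T / Λ * C0 ≤ κ / 8 * Real.log T := by
    have e : 2 * Real.log T / Λ * C0 = Real.log T * (2 * C0 / Λ) := by ring
    rw [e, mul_comm (κ / 8)]
    refine mul_le_mul_of_nonneg_left ?_ hLT
    rw [div_le_iff₀ (by linarith)]
    have : κ / 8 * Λ = κ / 8 + 2 * C0 := by
      rw [hΛ]; field_simp; ring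
    linarith
  have h10 : C / Λ * C0 ≤ C * C0 := by
    refine mul_le_mul_of_nonneg_right ?_ hC0
    exact div_le_self hC hΛ1
  have h11 : ((C + 2 * Real.log T) / Λ + 2) * C0 = 2 * Real.log T / Λ * C0 + C / Λ * C0 + 2 * C0 := by
    ring
  have h12 : 2 * π * (Multiset.card m * c) * w ≤ κ / 2 * Real.log T := by
    rw [h11, h8] at h7
    linarith
  have h13 : 2 * π * (Multiset.card m * c) * w = (2 * π * c * w) * Multiset.card m := by ring
  have h14 : κ / 2 * Real.log T ≤ (2 * π * c * w) * (η * Real.log t) := by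
    have e : (2 * π * c * w) * (η * Real.log t) = κ / 2 * (2 * Real.log t) := by
      rw [hκ]; ring
    rw [e]
    exact mul_le_mul_of_nonneg_left hlogt (by positivity)
  have h16 : 0 < 2 * π * c * w := by positivity
  exact le_of_mul_le_mul_left (by rw [← h13]; exact h12.trans h14) h16

end Pool.Agent.V7H83.LG
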