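import Pool.Agent.V7H83.LG.A6

/-!
The geometric mean criterion, global form.
-/

set_option autoImplicit false
open MeasureTheory Filter Topology Set Real
open scoped ENNReal ComplexConjugate

namespace Pool.Agent.V7H83.LG

open Pool.Agent.H983R4.LH hiding ct_measurable

/-- the Lindelöf hypothesis -/
def LH : Prop := ∀ ε : ℝ, 0 < ε → ∃ C : ℝ, ∀ t : ℝ, Z t ≤ C * (1 + |t|) ^ ε

variable {μ : Measure (ℝ × ℝ)} [IsProbabilityMeasure μ] {a b l : ℝ}

lemma Z_le_of_log {t ε : ℝ} (ht : 1 ≤ t) (h : log⁺ (Z t) ≤ ε * Real.log t) : Z t ≤ t ^ ε := by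
  rcases (Z_nonneg t).eq_or_lt with h0 | h0
  · rw [← h0]; positivity
  · have h1 : Real.log (Z t) ≤ ε * Real.log t := (le_max_right _ _).trans (by rwa [posLog_apply] at h)
    rw [← Real.log_rpow (by linarith)] at h1
    exact (Real.log_le_log_iff h0 (by positivity)).1 h1

/-- `ε`-bounds for all large `t` give the Lindelöf hypothesis -/
lemma lh_of_log (h : ∀ ε : ℝ, 0 < ε → ∃ T₀ : ℝ, ∀ t : ℝ, T₀ ≤ t → log⁺ (Z t) ≤ ε * Real.log t) : LH := by
  intro ε hε
  obtain ⟨T₀, hT₀⟩ := h ε hε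
  refine lh_of (T₁ := max T₀ 1) hε fun T hT => ?_
  have h1 : T₀ ≤ T := (le_max_left _ _).trans hT
  have h2 : 1 ≤ T := (le_max_right _ _).trans hT
  exact (Z_le_of_log h2 (hT₀ T h1)).trans (Real.rpow_le_rpow (by linarith) (by linarith) hε.le)

/-- the Lindelöf hypothesis bounds the positive part -/
lemma lh_pos (h : LH) {k : ℝ} (hk : 0 < k) {ε : ℝ} (hε : 0 < ε) : ∃ T₀ : ℝ, 1 ≤ T₀ ∧ ∀ x y : ℝ,
    T₀ ≤ x → 1 + |y| ≤ k * x → log⁺ (Z y) ≤ ε * Real.log x := by
  obtain ⟨C, hC⟩ := h (ε / 2) (by positivity)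
  set c : ℝ := log⁺ C + ε / 2 * log⁺ k with hc
  refine ⟨max 1 (Real.exp (2 * c / ε)), le_max_left _ _, fun x y hx hy => ?_⟩
  have hx1 : 1 ≤ x := (le_max_left _ _).trans hx
  have hL : 2 * c / ε ≤ Real.log x := by
    rw [Real.le_log_iff_exp_le (by linarith)]
    exact (le_max_right _ _).trans hx
  rw [div_le_iff₀ hε] at hL
  have h1 : Z y ≤ |C| * (k * x) ^ (ε / 2) := by
    refine (hC y).trans (mul_le_mul (le_abs_self C) (Real.rpow_le_rpow (by positivity) hy
      (by positivity)) (by positivity) (abs_nonneg _))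
  have h2 := posLog_le_posLog (Z_nonneg y) h1
  have h3 : log⁺ (|C| * (k * x) ^ (ε / 2)) ≤ log⁺ |C| + log⁺ ((k * x) ^ (ε / 2)) := posLog_mul
  have h4 : log⁺ ((k * x) ^ (ε / 2)) ≤ ε / 2 * (log⁺ k + Real.log x) := by
    rw [posLog_apply, Real.log_rpow (by positivity), Real.log_mul (by positivity) (by positivity)]
    have hlx : 0 ≤ Real.log x := Real.log_nonneg hx1
    have hk1 : Real.log k ≤ log⁺ k := le_max_right _ _
    have hk2 : 0 ≤ log⁺ k := posLog_nonneg
    refine max_le (by positivity) ?_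
    exact mul_le_mul_of_nonneg_left (by linarith) (by positivity)
  have h5 : log⁺ |C| = log⁺ C := posLog_abs C
  linarith

/-- **the geometric mean criterion, global form** -/
theorem geo_global (ha : 0 < a) (hμ : ∀ᵐ p ∂μ, a ≤ p.1 ∧ p.1 ≤ b ∧ |p.2| ≤ b)
    (hl : μ {p | p.1 = l} ≠ 0) :
    LH ↔ ∀ ε : ℝ, 0 < ε → ∃ T₀ : ℝ, ∀ᵐ x : ℝ, T₀ ≤ x →
      PP μ x ≤ NN μ x + ENNReal.ofReal (ε * Real.log x) := by
  constructor
  · intro h ε hε
    by_cases hb : 0 ≤ b
    · obtain ⟨T₀, hT₀, hT⟩ := lh_pos h (k := 1 + 2 * b) (by positivity) hε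
      refine ⟨T₀, Eventually.of_forall fun x hx => le_add_left ?_⟩
      have hx1 : 1 ≤ x := hT₀.trans hx
      have h1 : ∀ᵐ p ∂μ, pl (Z (p.1 * x + p.2)) ≤ ENNReal.ofReal (ε * Real.log x) := by
        filter_upwards [hμ] with p hp
        refine ENNReal.ofReal_le_ofReal (hT x _ hx ?_)
        have h2 : |p.1 * x + p.2| ≤ b * x + b := by
          refine (abs_add_le _ _).trans (add_le_add ?_ hp.2.2)
          rw [abs_mul, abs_of_pos (lt_of_lt_of_le ha hp.1), abs_of_pos (by linarith : 0 < x)]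
          exact mul_le_mul_of_nonneg_right hp.2.1 (by linarith)
        nlinarith
      have h2 := lintegral_mono_ae h1
      rw [lintegral_const, measure_univ, mul_one] at h2
      exact h2
    · exfalso
      have h1 : ∀ᵐ p ∂μ, False := by
        filter_upwards [hμ] with p hp
        exact hb ((abs_nonneg _).trans hp.2.2)
      rw [ae_iff] at h1
      simp at h1
  · intro h
    refine lh_of_log fun ε hε => ?_
    obtain ⟨ε', H, T₀, hε', hH, hloc⟩ := geo_local ha hμ hl hε (R := 0) le_rfl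
    obtain ⟨T₁, hT₁⟩ := h (ε' / 2) (by positivity)
    have hl0 : 0 < l := by
      by_contra hcon
      push Not at hcon
      refine hl (le_antisymm ?_ zero_le)
      have h1 : {p : ℝ × ℝ | p.1 = l} ⊆ {p | ¬ (a ≤ p.1 ∧ p.1 ≤ b ∧ |p.2| ≤ b)} := by
        intro p hp h2
        have hp' : p.1 = l := hp
        have h3 := h2.1
        rw [hp'] at h3
        linarith
      calc μ {p : ℝ × ℝ | p.1 = l} ≤ μ {p | ¬ (a ≤ p.1 ∧ p.1 ≤ b ∧ |p.2| ≤ b)} := measure_mono h1
        _ = 0 := ae_iff.1 hμ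
        _ ≤ 0 := le_rfl
    refine ⟨l * max (max T₀ (T₁ + H)) (max 2 H), fun t ht => ?_⟩
    set T : ℝ := t / l with hTdef
    have hT : max (max T₀ (T₁ + H)) (max 2 H) ≤ T := by
      rw [hTdef, le_div_iff₀ hl0]
      linarith
    have hTa : T₀ ≤ T := ((le_max_left _ _).trans (le_max_left _ _)).trans hT
    have hTb : T₁ + H ≤ T := ((le_max_right _ _).trans (le_max_left _ _)).trans hT
    have hTc : 2 ≤ T := ((le_max_left _ _).trans (le_max_right _ _)).trans hT
    have hTd : H ≤ T := ((le_max_right _ _).trans (le_max_right _ _)).trans hT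
    refine hloc T hTa ?_ t ?_
    · filter_upwards [hT₁] with x hx hxT
      have hxT' := abs_le.1 hxT
      refine (hx (by linarith)).trans ?_
      refine add_le_add le_rfl (ENNReal.ofReal_le_ofReal ?_)
      rcases le_or_gt x 1 with h1 | h1
      · -- then the bound is trivial
        rcases le_or_gt 0 x with h2 | h2
        · have : Real.log x ≤ 0 := Real.log_nonpos h2 h1
          have h3 : 0 ≤ Real.log T := Real.log_nonneg (by linarith)
          nlinarith [mul_nonneg hε'.le h3]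
        · exact absurd h2 (not_lt.2 (by linarith))
      · have h3 : Real.log x ≤ 2 * Real.log T := by
          have e : 2 * Real.log T = Real.log (T ^ 2) := by rw [Real.log_pow]; push_cast; ring
          rw [e]
          refine Real.log_le_log (by linarith) ?_
          nlinarith
        nlinarith
    · rw [hTdef]
      have : l * (t / l) = t := by field_simp
      rw [this]
      simp

end Pool.Agent.V7H83.LG
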