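import Pool.Agent.V7H83.LG.A7
import Mathlib.Analysis.SpecialFunctions.Integrability.LogMeromorphic

/-!
Special cases: finite products, geometric means over short intervals.
-/

set_option autoImplicit false
open MeasureTheory Filter Topology Set Real
open scoped ENNReal ComplexConjugate

namespace Pool.Agent.V7H83.LG

open Pool.Agent.H983R4.LH hiding ct_measurable

lemma Zline_analytic (x : ℝ) : AnalyticAt ℝ (fun x : ℝ => riemannZeta (1 / 2 + (x : ℂ) * Complex.I)) x := by
  have h1 : (1 / 2 + (x : ℂ) * Complex.I) ≠ 1 := by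
    intro h
    have := congrArg Complex.re h
    simp at this
  have h2 : AnalyticAt ℝ riemannZeta (1 / 2 + (x : ℂ) * Complex.I) := (zeta_an h1).restrictScalars
  have h3 : AnalyticAt ℝ (fun x : ℝ => (1 / 2 + (x : ℂ) * Complex.I)) x := by
    have : AnalyticAt ℝ (fun x : ℝ => (x : ℂ)) x := Complex.ofRealCLM.analyticAt x
    exact analyticAt_const.add (this.mul analyticAt_const)
  exact h2.comp_of_eq h3 rfl

lemma logZ_integrable (u v : ℝ) : IntervalIntegrable (fun x => Real.log (Z x)) volume u v := by
  have h : MeromorphicOn (fun x : ℝ => riemannZeta (1 / 2 + (x : ℂ) * Complex.I)) (Set.uIcc u v) :=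
    fun x _ => (Zline_analytic x).meromorphicAt
  exact h.intervalIntegrable_log_norm

lemma nl_ge (y : ℝ) : ENNReal.ofReal (log⁺ y⁻¹) ≤ nl y := by
  unfold nl
  split_ifs with h
  · exact le_top
  · rw [posLog_apply, Real.log_inv]
    rcases le_total 0 (-Real.log y) with h1 | h1
    · rw [max_eq_right h1]
    · rw [max_eq_left h1]; simp

lemma window_pl {x H δ : ℝ} (hH : 0 < H) (h : ∫ y in x..x + H, Real.log (Z y) ≤ δ) :
    ∫⁻ h in Ioc 0 H, pl (Z (1 * x + h)) ≤ (∫⁻ h in Ioc 0 H, nl (Z (1 * x + h))) + ENNReal.ofReal δ := by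
  have hint : IntervalIntegrable (fun h => Real.log (Z (x + h))) volume 0 H := by
    have := (logZ_integrable x (x + H)).comp_add_left x
    simpa using this
  have e0 : ∫ h in (0:ℝ)..H, Real.log (Z (x + h)) = ∫ y in x..x + H, Real.log (Z y) := by
    rw [intervalIntegral.integral_comp_add_left (fun y => Real.log (Z y)) x]
    simp
  rw [← e0, intervalIntegral.integral_of_le hH.le] at h
  have hi : IntegrableOn (fun h => Real.log (Z (x + h))) (Ioc 0 H) := by
    rwa [intervalIntegrable_iff_integrableOn_Ioc_of_le hH.le] at hint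
  have hm : Measurable fun h => Z (x + h) := Z_measurable.comp (measurable_const_add x)
  have hp : IntegrableOn (fun h => log⁺ (Z (x + h))) (Ioc 0 H) := by
    refine Integrable.mono' hi.norm (continuous_posLog.measurable.comp hm).aestronglyMeasurable
      (Eventually.of_forall fun h => ?_)
    rw [Real.norm_eq_abs, Real.norm_eq_abs, abs_of_nonneg posLog_nonneg, posLog_apply]
    exact max_le (abs_nonneg _) (le_abs_self _)
  have hn : IntegrableOn (fun h => log⁺ (Z (x + h))⁻¹) (Ioc 0 H) := by
    refine Integrable.mono' hi.norm (continuous_posLog.measurable.comp hm.inv).aestronglyMeasurable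
      (Eventually.of_forall fun h => ?_)
    rw [Real.norm_eq_abs, Real.norm_eq_abs, abs_of_nonneg posLog_nonneg, posLog_apply, Real.log_inv]
    exact max_le (abs_nonneg _) (neg_le_abs _)
  have e1 : ∫ h in Ioc 0 H, log⁺ (Z (x + h)) =
      (∫ h in Ioc 0 H, log⁺ (Z (x + h))⁻¹) + ∫ h in Ioc 0 H, Real.log (Z (x + h)) := by
    rw [← integral_add hn hi]
    refine integral_congr_ae (Eventually.of_forall fun h => ?_)
    have := posLog_sub_posLog_inv (x := Z (x + h))
    simp only
    linarith
  have e2 : ∫⁻ h in Ioc 0 H, pl (Z (x + h)) = ENNReal.ofReal (∫ h in Ioc 0 H, log⁺ (Z (x + h))) := by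
    rw [ofReal_integral_eq_lintegral_ofReal hp (Eventually.of_forall fun _ => posLog_nonneg)]
    rfl
  have e3 : ENNReal.ofReal (∫ h in Ioc 0 H, log⁺ (Z (x + h))⁻¹) ≤ ∫⁻ h in Ioc 0 H, nl (Z (x + h)) := by
    rw [ofReal_integral_eq_lintegral_ofReal hn (Eventually.of_forall fun _ => posLog_nonneg)]
    exact lintegral_mono fun h => nl_ge _
  simp only [one_mul]
  rw [e2, e1]
  refine ENNReal.ofReal_add_le.trans (add_le_add e3 (ENNReal.ofReal_le_ofReal h))

/-- the measure of an interval of translations -/
noncomputable def wm (H : ℝ) : Measure (ℝ × ℝ) :=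
  Measure.map (fun h : ℝ => ((1:ℝ), h)) ((ENNReal.ofReal H)⁻¹ • volume.restrict (Ioc 0 H))

lemma wm_prob {H : ℝ} (hH : 0 < H) : IsProbabilityMeasure (wm H) := by
  have h1 : IsProbabilityMeasure ((ENNReal.ofReal H)⁻¹ • volume.restrict (Ioc 0 H)) := by
    refine ⟨?_⟩
    rw [Measure.smul_apply, Measure.restrict_apply_univ, Real.volume_Ioc, sub_zero, smul_eq_mul]
    exact ENNReal.inv_mul_cancel (by simpa using hH) ENNReal.ofReal_ne_top
  exact Measure.isProbabilityMeasure_map (by fun_prop)

lemma wm_lintegral {H : ℝ} {f : ℝ × ℝ → ℝ≥0∞} (hf : Measurable f) :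
    ∫⁻ p, f p ∂wm H = (ENNReal.ofReal H)⁻¹ * ∫⁻ h in Ioc 0 H, f (1, h) := by
  unfold wm
  rw [lintegral_map hf (by fun_prop), lintegral_smul_measure, smul_eq_mul]

/-- **geometric means over intervals of fixed length** -/
theorem windows {H : ℝ} (hH : 0 < H) :
    LH ↔ ∀ ε : ℝ, 0 < ε → ∃ T₀ : ℝ, ∀ T : ℝ, T₀ ≤ T →
      ∫ x in T..T + H, Real.log (Z x) ≤ ε * Real.log T := by
  constructor
  · intro h ε hε
    obtain ⟨T₀, hT₀, hT⟩ := lh_pos h (k := 2 + H) (by positivity) (ε := ε / H) (by positivity)
    refine ⟨T₀, fun T hTT => ?_⟩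
    have hT1 : 1 ≤ T := hT₀.trans hTT
    have h1 : ∫ x in T..T + H, Real.log (Z x) ≤ ∫ x in T..T + H, ε / H * Real.log T := by
      refine intervalIntegral.integral_mono_on (by linarith) (logZ_integrable _ _)
        intervalIntegrable_const fun x hx => ?_
      refine (le_trans (le_max_right _ _) (le_of_eq (posLog_apply).symm)).trans (hT T x hTT ?_)
      rw [abs_of_nonneg (by linarith [hx.1])]
      nlinarith [hx.2]
    rw [intervalIntegral.integral_const, smul_eq_mul] at h1
    have e : (T + H - T) * (ε / H * Real.log T) = ε * Real.log T := by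
      field_simp; ring
    rwa [e] at h1
  · intro h
    have := wm_prob hH
    refine (geo_global (μ := wm H) (a := 1) (b := 1 + H) (l := 1) one_pos ?_ ?_).2 ?_
    · unfold wm
      rw [ae_map_iff (by fun_prop)]
      · refine Measure.ae_smul_measure ?_ _
        filter_upwards [ae_restrict_mem measurableSet_Ioc] with h hh
        exact ⟨le_rfl, by linarith, by rw [abs_of_pos hh.1]; linarith [hh.2]⟩
      · exact (measurableSet_le measurable_const measurable_fst).inter
          ((measurableSet_le measurable_fst measurable_const).inter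
            (measurableSet_le (measurable_norm.comp measurable_snd) measurable_const))
    · have hms : MeasurableSet {p : ℝ × ℝ | p.1 = 1} := measurable_fst (measurableSet_singleton 1)
      have h1 : wm H {p | p.1 = 1} = 1 := by
        have h2 : wm H {p | p.1 = 1} = wm H univ := by
          unfold wm
          rw [Measure.map_apply (by fun_prop) hms, Measure.map_apply (by fun_prop) MeasurableSet.univ]
          congr 1
          ext h
          simp
        rw [h2, measure_univ]
      rw [h1]
      exact one_ne_zero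
    · intro ε hε
      obtain ⟨T₀, hT₀⟩ := h (ε * H) (by positivity)
      refine ⟨max T₀ 1, Eventually.of_forall fun x hx => ?_⟩
      have hx1 : 1 ≤ x := (le_max_right _ _).trans hx
      have hlx : 0 ≤ Real.log x := Real.log_nonneg hx1
      have h1 := window_pl hH (hT₀ x ((le_max_left _ _).trans hx))
      have mm : Measurable fun p : ℝ × ℝ => Z (p.1 * x + p.2) := Z_measurable.comp (by fun_prop)
      unfold PP NN
      rw [wm_lintegral (f := fun p : ℝ × ℝ => pl (Z (p.1 * x + p.2))) (pl_measurable.comp mm),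
        wm_lintegral (f := fun p : ℝ × ℝ => nl (Z (p.1 * x + p.2))) (nl_measurable.comp mm)]
      have e : (ENNReal.ofReal H)⁻¹ * ENNReal.ofReal (ε * H * Real.log x) =
          ENNReal.ofReal (ε * Real.log x) := by
        rw [← ENNReal.ofReal_inv_of_pos hH, ← ENNReal.ofReal_mul (by positivity)]
        congr 1
        field_simp
      calc _ ≤ (ENNReal.ofReal H)⁻¹ * ((∫⁻ h in Ioc 0 H, nl (Z (1 * x + h))) +
            ENNReal.ofReal (ε * H * Real.log x)) := by gcongr
        _ = _ := by rw [mul_add, e]

end Pool.Agent.V7H83.LG
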